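import Pool.Agent.Lib_helper70.FSRing

set_option autoImplicit false

/-!
The leading coefficient argument on the curves.
-/

namespace Pool.Agent.Lib_helper70.FS

open MvPowerSeries

/-- approximation of a tame power series on the curve `gg (n+2) = 0` -/
lemma Tame.res_approx {N n K : ℕ} {f : PS} (hf : Tame N f) (hn : N ≤ n)
    (hK : N * K ≤ (n + 1).factorial) :
    ∃ p ∈ PN n, PowerSeries.X ^ K ∣ res n f - res n p ∧
      ∀ e, N * e ≤ n.factorial → X 1 ^ e ∣ f - p := by
  obtain ⟨F, hF⟩ := hf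
  obtain ⟨h1, ⟨q, _, hq⟩, h3⟩ := hF n hn
  obtain ⟨_, _, k3⟩ := hF (n + 1) (by omega)
  refine ⟨F n, h1, ?_, h3⟩
  have h4 := X_pow_dvd_res (n := n) (k3 K hK)
  have h5 : res n (F (n + 1)) = res n (F n) := by
    rw [← sub_eq_zero, ← map_sub, hq, map_mul, res_gg, zero_mul]
  rwa [map_sub, h5] at h4

lemma order_le_of_approx {N : ℕ} {f p : PS} (hf : f.order ≤ N) (h : X 1 ^ (N + 1) ∣ f - p) :
    p.order ≤ N := by
  obtain ⟨m, hm, hm0⟩ := exists_coeff_of_order_le hf
  rw [X_pow_dvd_iff] at h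
  have hm1 : m 1 < N + 1 := by
    have : m.degree = m 0 + m 1 := by
      rw [Finsupp.degree_eq_sum, Fin.sum_univ_two]
    omega
  have h1 := h m hm1
  rw [map_sub, sub_eq_zero] at h1
  rw [h1] at hm0
  exact (order_le hm0).trans (by exact_mod_cast hm)

/-- a product formula at the lowest coefficient -/
lemma mem_of_lowest {K : Subfield kk} {Z A r : PowerSeries kk} {k D : ℕ} (hZ : Z ∈ PSK K)
    (hA : A ∈ PSK K) (hD : Z.order ≤ D) (hk : D < k) (h : PowerSeries.X ^ k ∣ Z * r - A) :
    PowerSeries.constantCoeff r ∈ K := by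
  have hZ0 : Z ≠ 0 := by
    rintro rfl
    rw [PowerSeries.order_zero] at hD
    exact absurd hD (by simp)
  set w := Z.order.toNat with hw
  have hwD : w ≤ D := by
    have h1 : ((w : ℕ) : ℕ∞) = Z.order := PowerSeries.coe_toNat_order hZ0
    rw [← h1] at hD
    exact_mod_cast hD
  have hZw : PowerSeries.coeff w Z ≠ 0 := PowerSeries.coeff_order hZ0
  obtain ⟨Z', hZ'⟩ := PowerSeries.X_pow_order_dvd (φ := Z)
  rw [← hw] at hZ'
  have e1 : PowerSeries.coeff w Z = PowerSeries.constantCoeff Z' := by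
    have := PowerSeries.coeff_X_pow_mul Z' w 0
    rw [zero_add, ← hZ'] at this
    rw [this, PowerSeries.coeff_zero_eq_constantCoeff_apply]
  have e2 : PowerSeries.coeff w (Z * r) =
      PowerSeries.constantCoeff Z' * PowerSeries.constantCoeff r := by
    have := PowerSeries.coeff_X_pow_mul (Z' * r) w 0
    rw [zero_add, ← mul_assoc, ← hZ'] at this
    rw [this, PowerSeries.coeff_zero_eq_constantCoeff_apply, map_mul]
  rw [PowerSeries.X_pow_dvd_iff] at h
  have h2 := h w (by omega)
  rw [map_sub, sub_eq_zero, e2, ← e1] at h2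
  have h3 : PowerSeries.constantCoeff r = (PowerSeries.coeff w Z)⁻¹ * PowerSeries.coeff w A := by
    rw [← h2, ← mul_assoc, inv_mul_cancel₀ hZw, one_mul]
  rw [h3]
  exact mul_mem (K.inv_mem (hZ w)) (hA w)

lemma order_res_X1 (n : ℕ) : (res n (X 1)).order ≤ 2 := by
  obtain ⟨i, hi, h⟩ := res_X1_ne n
  exact (PowerSeries.order_le i h).trans (by exact_mod_cast hi)

lemma order_res_le {n : ℕ} {f : PS} (hf : f ∈ PN n) {D : ℕ} (h : f.order ≤ D) :
    (res n f).order ≤ ((2 * D : ℕ) : ℕ∞) := by
  obtain ⟨i, hi, h⟩ := res_ne hf h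
  exact (PowerSeries.order_le i h).trans (by exact_mod_cast hi)

/-- the core of the killing argument -/
theorem core {N n : ℕ} (hN : 1 ≤ N) (hn : N * (4 * N + 3) ≤ n + 1) {G G' θ θ' a w : PS}
    (hG : Tame N G) (hG' : Tame N G') (hGo : G.order ≤ N) (hGo' : G'.order ≤ N)
    (hGθ : Tame N (G * θ)) (hGθ' : Tame N (G' * θ'))
    (h : θ - θ' = X 1 ^ n.factorial * a + X 1 ^ (n + 1).factorial * w) :
    constantCoeff a ∈ KK (2 * n + 1) := by
  set k := (4 * N + 3) * n.factorial with hk
  have hf1 : 1 ≤ n.factorial := Nat.factorial_pos n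
  have hfn : n ≤ n.factorial := Nat.self_le_factorial n
  have hNN : N + (N + 1) * N ≤ N * (4 * N + 3) - 1 := by
    have : N + (N + 1) * N + 1 ≤ N * (4 * N + 3) := by nlinarith
    omega
  have hNn : N ≤ n := by
    have : N ≤ N + (N + 1) * N := Nat.le_add_right _ _
    omega
  have hN1 : N * (N + 1) ≤ n.factorial := by
    have : N * (N + 1) ≤ N + (N + 1) * N := by nlinarith
    omega
  have hk1 : N * k ≤ (n + 1).factorial := by
    rw [Nat.factorial_succ, hk, ← mul_assoc]
    exact Nat.mul_le_mul_right _ hn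
  have hk2 : k ≤ (n + 1).factorial := by
    refine le_trans ?_ hk1
    exact Nat.le_mul_of_pos_left k hN
  have hk3 : 4 * N + 2 * n.factorial < k := by
    rw [hk]; nlinarith
  obtain ⟨p, hp, hp1, hp2⟩ := hG.res_approx hNn hk1
  obtain ⟨p', hp', hp1', hp2'⟩ := hG'.res_approx hNn hk1
  have hF : Tame N (G' * (G * θ) - G * (G' * θ')) := (hG'.mul hGθ).sub (hG.mul hGθ')
  obtain ⟨s, hs, hs1, _⟩ := hF.res_approx hNn hk1
  have ho : p.order ≤ N := order_le_of_approx hGo (hp2 _ hN1)
  have ho' : p'.order ≤ N := order_le_of_approx hGo' (hp2' _ hN1)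
  refine (constantCoeff_res n a) ▸ mem_of_lowest (K := KK (2 * n + 1))
    (Z := res n p * res n p' * res n (X 1) ^ n.factorial) (A := res n s) (r := res n a)
    (k := k) (D := 4 * N + 2 * n.factorial) ?_ (res_mem hs) ?_ hk3 ?_
  · exact mul_mem (mul_mem (res_mem hp) (res_mem hp'))
      (pow_mem (res_mem (X_mem_Pol _ _)) _)
  · rw [PowerSeries.order_mul, PowerSeries.order_mul, PowerSeries.order_pow]
    have h1 := order_res_le hp ho
    have h2 := order_res_le hp' ho'
    have h3 := order_res_X1 n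
    calc (res n p).order + (res n p').order + n.factorial • (res n (X 1)).order
        ≤ ((2 * N : ℕ) : ℕ∞) + ((2 * N : ℕ) : ℕ∞) + n.factorial • (2 : ℕ∞) :=
          add_le_add (add_le_add h1 h2) (nsmul_le_nsmul_right h3 _)
      _ = ((4 * N + 2 * n.factorial : ℕ) : ℕ∞) := by
          rw [nsmul_eq_mul]
          push_cast
          ring
  · have e1 : G' * (G * θ) - G * (G' * θ') =
        G * G' * (X 1 ^ n.factorial * a) + X 1 ^ (n + 1).factorial * (G * G' * w) := by
      linear_combination (G * G') * h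
    rw [e1] at hs1
    have hy : PowerSeries.X ^ k ∣ res n (X 1 ^ (n + 1).factorial * (G * G' * w)) :=
      X_pow_dvd_res ((pow_dvd_pow _ hk2).mul_right _)
    rw [map_add] at hs1
    have h2 := dvd_sub hs1 hy
    have h3 : PowerSeries.X ^ k ∣ res n G * res n G' - res n p * res n p' := by
      have := dvd_add (hp1.mul_right (res n G')) (hp1'.mul_left (res n p))
      convert this using 1
      ring
    have h4 := dvd_sub h2 (h3.mul_right (res n (X 1) ^ n.factorial * res n a))
    convert h4 using 1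
    rw [map_mul, map_mul, map_mul, map_pow]
    ring

end Pool.Agent.Lib_helper70.FS
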