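import Pool.Agent.Lib_helper70.FSPhi

set_option autoImplicit false

/-!
Restriction to the curves `gg (n+2) = 0`.
-/

namespace Pool.Agent.Lib_helper70.FS

open MvPowerSeries

/-- parametrisation of the curve `t_n x = y²` -/
noncomputable def kv (n : ℕ) : Fin 2 → PowerSeries kk :=
  ![PowerSeries.C (tt n)⁻¹ * PowerSeries.X ^ 2, PowerSeries.X]

lemma kv_cc (n : ℕ) (i : Fin 2) : PowerSeries.constantCoeff (kv n i) = 0 := by
  fin_cases i <;> simp [kv]

lemma kv_hs (n : ℕ) : HasSubst (τ := Unit) (kv n) := hasSubst_of_constantCoeff_zero (kv_cc n)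

/-- restriction to the curve `t_n x = y²` -/
noncomputable def kap (n : ℕ) : PS →ₐ[kk] PowerSeries kk := substAlgHom (kv_hs n)

lemma kap_C (n : ℕ) (c : kk) : kap n (C c) = PowerSeries.C c := (kap n).commutes c
lemma kap_X0 (n : ℕ) : kap n (X 0) = PowerSeries.C (tt n)⁻¹ * PowerSeries.X ^ 2 :=
  substAlgHom_X (kv_hs n) 0
lemma kap_X1 (n : ℕ) : kap n (X 1) = PowerSeries.X := substAlgHom_X (kv_hs n) 1

/-- restriction to the curve `gg (n+2) = 0` -/
noncomputable def res (n : ℕ) : PS →ₐ[kk] PowerSeries kk := (kap n).comp (Ti n)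

lemma res_apply (n : ℕ) (f : PS) : res n f = kap n (Ti n f) := rfl

lemma res_C (n : ℕ) (c : kk) : res n (C c) = PowerSeries.C c := (res n).commutes c

lemma res_gg (n : ℕ) : res n (gg (n + 2)) = 0 := by
  rw [res_apply, gg_succ, Th_succ, Ti_Th, th_X1, map_add, map_mul, map_pow, kap_C, kap_X0, kap_X1,
    ← mul_assoc, ← map_mul, mul_inv_cancel₀ (tt_ne n), map_one, one_mul]
  have : CharP (PowerSeries kk) 2 := charP_of_injective_ringHom PowerSeries.C_injective 2
  exact CharTwo.add_self_eq_zero _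

lemma res_succ_gg (n : ℕ) : res (n + 1) (gg (n + 2)) = PowerSeries.X := by
  rw [res_apply, gg_succ, Ti_Th, kap_X1]

lemma constantCoeff_kap {n : ℕ} {f : PS} (h : constantCoeff f = 0) :
    PowerSeries.constantCoeff (kap n f) = 0 := by
  rw [kap, substAlgHom_apply]
  exact constantCoeff_subst_eq_zero (kv_hs n) (kv_cc n) h

lemma constantCoeff_res (n : ℕ) (f : PS) :
    PowerSeries.constantCoeff (res n f) = constantCoeff f := by
  have h1 : constantCoeff (f - C (constantCoeff f)) = 0 := by
    rw [map_sub, constantCoeff_C, sub_self]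
  have h2 : constantCoeff (Ti n (f - C (constantCoeff f))) = 0 := by
    rw [← one_le_order_iff_constCoeff_eq_zero] at h1 ⊢
    exact h1.trans (le_order_Ti n _)
  have h3 := constantCoeff_kap (n := n) h2
  rw [← res_apply, map_sub, res_C, map_sub, PowerSeries.constantCoeff_C, sub_eq_zero] at h3
  exact h3

/-- power series with coefficients in `K` -/
noncomputable def PSK (K : Subfield kk) : Subring (PowerSeries kk) where
  carrier := {f | ∀ i, PowerSeries.coeff i f ∈ K}
  mul_mem' := by
    intro f g hf hg i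
    rw [PowerSeries.coeff_mul]
    exact sum_mem fun _ _ => mul_mem (hf _) (hg _)
  one_mem' := by
    intro i
    rw [PowerSeries.coeff_one]
    split_ifs
    · exact one_mem _
    · exact zero_mem _
  add_mem' := by
    intro f g hf hg i
    rw [map_add]; exact add_mem (hf i) (hg i)
  zero_mem' := by
    intro i
    rw [map_zero]; exact zero_mem _
  neg_mem' := by
    intro f hf i
    rw [map_neg]; exact neg_mem (hf i)

lemma mem_PSK {K : Subfield kk} {f : PowerSeries kk} :
    f ∈ PSK K ↔ ∀ i, PowerSeries.coeff i f ∈ K := Iff.rfl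

lemma C_mem_PSK {K : Subfield kk} {c : kk} (h : c ∈ K) : PowerSeries.C c ∈ PSK K := by
  intro i
  rw [PowerSeries.coeff_C]
  split_ifs
  · exact h
  · exact zero_mem _

lemma X_mem_PSK (K : Subfield kk) : PowerSeries.X ∈ PSK K := by
  intro i
  rw [PowerSeries.coeff_X]
  split_ifs
  · exact one_mem _
  · exact zero_mem _

lemma kap_mem {n : ℕ} {f : PS} (hf : f ∈ PN n) : kap n f ∈ PSK (KK (2 * n + 1)) := by
  refine Pol_induction (p := fun f => kap n f ∈ PSK (KK (2 * n + 1))) ?_ ?_ ?_ f hf
  · intro c hc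
    rw [kap_C]
    exact C_mem_PSK (KK_mono (by omega) hc)
  · intro f g hf hg
    rw [map_add]; exact add_mem hf hg
  · intro f i _ hf
    rw [map_mul]
    refine mul_mem hf ?_
    fin_cases i
    · change kap n (X 0) ∈ _
      rw [kap_X0]
      exact mul_mem (C_mem_PSK ((KK _).inv_mem (xx_mem (by omega)))) (pow_mem (X_mem_PSK _) 2)
    · change kap n (X 1) ∈ _
      rw [kap_X1]
      exact X_mem_PSK _

lemma res_mem {n : ℕ} {f : PS} (hf : f ∈ PN n) : res n f ∈ PSK (KK (2 * n + 1)) :=
  kap_mem (Ti_mem le_rfl hf)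

/-- exponent vectors -/
noncomputable def mk2 (a b : ℕ) : Fin 2 →₀ ℕ := Finsupp.single 0 a + Finsupp.single 1 b

lemma mk2_zero (a b : ℕ) : mk2 a b 0 = a := by simp [mk2]
lemma mk2_one (a b : ℕ) : mk2 a b 1 = b := by simp [mk2]
lemma mk2_eta (m : Fin 2 →₀ ℕ) : mk2 (m 0) (m 1) = m := by
  apply Finsupp.ext
  intro i
  fin_cases i
  · exact mk2_zero _ _
  · exact mk2_one _ _

lemma coeff_kap (n i : ℕ) {f : PS} (hf : f ∈ Pol ⊤) :
    PowerSeries.coeff i (kap n f) =
      ∑ a ∈ Finset.range (i + 1),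
        (if 2 * a ≤ i then coeff (mk2 a (i - 2 * a)) f else 0) * (tt n)⁻¹ ^ a := by
  classical
  refine Pol_induction_monomial (p := fun f => PowerSeries.coeff i (kap n f) =
      ∑ a ∈ Finset.range (i + 1),
        (if 2 * a ≤ i then coeff (mk2 a (i - 2 * a)) f else 0) * (tt n)⁻¹ ^ a) ?_ ?_ f hf
  · intro m c _
    have e : kap n (monomial m c) =
        PowerSeries.C (c * (tt n)⁻¹ ^ (m 0)) * PowerSeries.X ^ (2 * m 0 + m 1) := by
      rw [monomial_eq, map_mul, map_mul, map_pow, map_pow, kap_C, kap_X0, kap_X1, mul_pow,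
        map_mul, map_pow]
      ring
    rw [e, PowerSeries.coeff_C_mul, PowerSeries.coeff_X_pow]
    by_cases h : i = 2 * m 0 + m 1
    · rw [if_pos h, mul_one, Finset.sum_eq_single_of_mem (m 0) (by rw [Finset.mem_range]; omega)]
      · rw [if_pos (by omega), show i - 2 * m 0 = m 1 by omega, mk2_eta, coeff_monomial_same]
      · intro a _ hne
        split_ifs with h2
        · rw [coeff_monomial, if_neg, zero_mul]
          intro h3
          apply hne
          have := DFunLike.congr_fun h3 0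
          rwa [mk2_zero] at this
        · rw [zero_mul]
    · rw [if_neg h, mul_zero]
      symm
      apply Finset.sum_eq_zero
      intro a _
      split_ifs with h2
      · rw [coeff_monomial, if_neg, zero_mul]
        intro h3
        apply h
        have h4 := DFunLike.congr_fun h3 0
        have h5 := DFunLike.congr_fun h3 1
        rw [mk2_zero] at h4
        rw [mk2_one] at h5
        omega
      · rw [zero_mul]
  · intro f g hf hg
    rw [map_add, map_add, hf, hg, ← Finset.sum_add_distrib]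
    refine Finset.sum_congr rfl fun a _ => ?_
    split_ifs
    · rw [map_add, add_mul]
    · ring

/-- no cancellation on the curve -/
lemma kap_ne {n : ℕ} {f : PS} (hf : f ∈ PN n) {m : Fin 2 →₀ ℕ} (hm : coeff m f ≠ 0) :
    PowerSeries.coeff (2 * m 0 + m 1) (kap n f) ≠ 0 := by
  intro h0
  set i := 2 * m 0 + m 1 with hi
  rw [coeff_kap n i (PN_le_top n hf)] at h0
  have h1 : ∑ a ∈ Finset.range (i + 1),
      (if 2 * (i - a) ≤ i then coeff (mk2 (i - a) (i - 2 * (i - a))) f else 0) *
        xx (2 * n) ^ a = 0 := by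
    rw [← Finset.sum_range_reflect] at h0
    have h2 := congrArg (fun z => z * tt n ^ i) h0
    simp only [zero_mul, Finset.sum_mul] at h2
    refine Eq.trans (Finset.sum_congr rfl fun a ha => ?_) h2
    rw [Finset.mem_range] at ha
    rw [show i + 1 - 1 - a = i - a by omega, mul_assoc]
    congr 1
    have e : tt n ^ i = tt n ^ (i - a) * tt n ^ a := by rw [← pow_add]; congr 1; omega
    rw [e, ← mul_assoc, ← mul_pow, inv_mul_cancel₀ (tt_ne n), one_pow, one_mul, tt]
  have h3 := xx_transc (j := 2 * n) (Finset.range (i + 1))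
    (fun a => if 2 * (i - a) ≤ i then coeff (mk2 (i - a) (i - 2 * (i - a))) f else 0)
    (by
      intro a
      split_ifs
      · exact coeff_mem_of_Pol hf _
      · exact zero_mem _) h1 (i - m 0) (by rw [Finset.mem_range]; omega)
  have e1 : i - (i - m 0) = m 0 := by omega
  simp only [e1] at h3
  rw [if_pos (by omega), show i - 2 * m 0 = m 1 by omega, mk2_eta] at h3
  exact hm h3

lemma exists_coeff_of_order_le {f : PS} {D : ℕ} (h : f.order ≤ D) :
    ∃ m : Fin 2 →₀ ℕ, m.degree ≤ D ∧ coeff m f ≠ 0 := by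
  by_contra hcon
  push Not at hcon
  have h1 : ((D + 1 : ℕ) : ℕ∞) ≤ f.order := by
    apply MvPowerSeries.le_order
    intro m hm
    apply hcon
    have : m.degree < D + 1 := by exact_mod_cast hm
    omega
  have h2 := h1.trans h
  have h3 : D + 1 ≤ D := by exact_mod_cast h2
  omega

lemma res_ne {n : ℕ} {f : PS} (hf : f ∈ PN n) {D : ℕ} (h : f.order ≤ D) :
    ∃ i ≤ 2 * D, PowerSeries.coeff i (res n f) ≠ 0 := by
  have h1 : (Ti n f).order ≤ D := by
    refine le_trans ?_ h
    have := le_order_Th n (Ti n f)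
    rwa [Th_Ti] at this
  obtain ⟨m, hm, hm0⟩ := exists_coeff_of_order_le h1
  refine ⟨2 * m 0 + m 1, ?_, kap_ne (Ti_mem le_rfl hf) hm0⟩
  have : m.degree = m 0 + m 1 := by
    rw [Finsupp.degree_eq_sum, Fin.sum_univ_two]
  omega

lemma res_X1_ne (n : ℕ) : ∃ i ≤ 2, PowerSeries.coeff i (res n (X 1)) ≠ 0 := by
  refine res_ne (n := n) (X_mem_Pol _ _) (D := 1) ?_
  refine (order_le (d := Finsupp.single 1 1) ?_).trans ?_
  · rw [coeff_index_single_self_X]; exact one_ne_zero
  · simp

lemma X_dvd_res_X1 (n : ℕ) : PowerSeries.X ∣ res n (X 1) := by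
  rw [PowerSeries.X_dvd_iff, constantCoeff_res]
  simp

lemma X_pow_dvd_res {n e : ℕ} {f : PS} (h : X 1 ^ e ∣ f) : PowerSeries.X ^ e ∣ res n f := by
  refine (pow_dvd_pow_of_dvd (X_dvd_res_X1 n) e).trans ?_
  rw [← map_pow]
  exact map_dvd (res n) h

lemma not_X1_dvd_gg (n : ℕ) : ¬ (X 1 : PS) ∣ gg (n + 2) := by
  rintro ⟨u, hu⟩
  have h1 : PowerSeries.constantCoeff (res (n + 1) u) ≠ 0 := by
    obtain ⟨v, hv⟩ := X_dvd_res_X1 (n + 1)
    have h2 : (PowerSeries.X : PowerSeries kk) * (v * res (n + 1) u) = PowerSeries.X * 1 := by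
      rw [mul_one, ← mul_assoc, ← hv, ← map_mul, ← hu, res_succ_gg]
    have h3 := mul_left_cancel₀ PowerSeries.X_ne_zero h2
    intro h4
    have h5 := congrArg PowerSeries.constantCoeff h3
    rw [map_mul, h4, mul_zero, map_one] at h5
    exact zero_ne_one h5
  rw [constantCoeff_res] at h1
  have h2 : res n u ≠ 0 := by
    intro h3
    apply h1
    rw [← constantCoeff_res n, h3, map_zero]
  have h3 := res_gg n
  rw [hu, map_mul, mul_eq_zero] at h3
  rcases h3 with h3 | h3
  · obtain ⟨i, _, hi⟩ := res_X1_ne n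
    rw [h3, map_zero] at hi
    exact hi rfl
  · exact h2 h3

end Pool.Agent.Lib_helper70.FS
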