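import Mathlib

set_option autoImplicit false

/-!
The coefficient field `kk = F_2(X_0, X_1, ...)`, its additive `2⁻¹`-linear map `lam` and the
subfields `KK j = F_2(X_i : i < j)`.
-/

namespace Pool.Agent.Lib_helper70.FS

open MvPolynomial

/-- polynomial ring in countably many variables over `F_2` -/
abbrev A0 := MvPolynomial ℕ (ZMod 2)

/-- its fraction field -/
abbrev kk := FractionRing A0

/-- halving an exponent vector -/
noncomputable def half {σ : Type} (m : σ →₀ ℕ) : σ →₀ ℕ := m.mapRange (fun a => a / 2) (by simp)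

lemma half_apply {σ : Type} (m : σ →₀ ℕ) (i : σ) : half m i = m i / 2 := by
  simp [half]

open Classical in
/-- even part extraction followed by square root -/
noncomputable def lamA : A0 →ₗ[ZMod 2] A0 :=
  (basisMonomials ℕ (ZMod 2)).constr (ZMod 2) fun m =>
    if ∀ i, Even (m i) then monomial (half m) 1 else 0

open Classical in
lemma lamA_monomial (m : ℕ →₀ ℕ) (c : ZMod 2) :
    lamA (monomial m c) = if ∀ i, Even (m i) then monomial (half m) c else 0 := by
  have h : (monomial m c : A0) = c • (basisMonomials ℕ (ZMod 2)) m := by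
    simp [coe_basisMonomials, smul_monomial]
  rw [h, map_smul, lamA, Module.Basis.constr_basis]
  split_ifs
  · simp [smul_monomial]
  · simp

lemma sq_zmod2 (c : ZMod 2) : c ^ 2 = c := by
  revert c; decide

lemma lamA_sq_mul (s f : A0) : lamA (s ^ 2 * f) = s * lamA f := by
  classical
  induction s using MvPolynomial.induction_on' with
  | add p q hp hq =>
    rw [CharTwo.add_sq, add_mul, map_add, hp, hq, add_mul]
  | monomial a c =>
    induction f using MvPolynomial.induction_on' with
    | add p q hp hq => rw [mul_add, map_add, hp, hq, map_add, mul_add]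
    | monomial b d =>
      rw [monomial_pow, monomial_mul, lamA_monomial, lamA_monomial, sq_zmod2]
      have h1 : (∀ i, Even ((2 • a + b) i)) ↔ ∀ i, Even (b i) := by
        refine forall_congr' fun i => ?_
        simp [Nat.even_add]
      by_cases h : ∀ i, Even (b i)
      · have h2 : half (2 • a + b) = a + half b := by
          apply Finsupp.ext
          intro i
          simp only [half_apply, Finsupp.add_apply, Finsupp.smul_apply, smul_eq_mul]
          omega
        rw [if_pos (h1.2 h), if_pos h, monomial_mul, h2]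
      · rw [if_neg (fun h2 => h (h1.1 h2)), if_neg h, mul_zero]

lemma lamA_one : lamA 1 = 1 := by
  classical
  have : (1 : A0) = monomial 0 1 := rfl
  have h2 : half (0 : ℕ →₀ ℕ) = 0 := by
    apply Finsupp.ext
    intro i
    simp [half]
  rw [this, lamA_monomial, if_pos (by simp), h2]

/-- `lam` on fractions, well-definedness -/
lemma lam_wd (a b a' b' : A0) (hb : b ≠ 0) (hb' : b' ≠ 0) (h : a * b' = a' * b) :
    (algebraMap A0 kk (lamA (a * b))) / algebraMap A0 kk b =
      (algebraMap A0 kk (lamA (a' * b'))) / algebraMap A0 kk b' := by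
  have h1 : algebraMap A0 kk b ≠ 0 := by
    simpa using hb
  have h2 : algebraMap A0 kk b' ≠ 0 := by
    simpa using hb'
  rw [div_eq_div_iff h1 h2, ← map_mul, ← map_mul]
  congr 1
  have e1 : b' ^ 2 * (a * b) = b ^ 2 * (a' * b') := by
    linear_combination (b * b') * h
  rw [mul_comm, ← lamA_sq_mul, e1, lamA_sq_mul, mul_comm]

lemma exists_frac (x : kk) : ∃ a b : A0, b ≠ 0 ∧ algebraMap A0 kk a / algebraMap A0 kk b = x := by
  obtain ⟨a, b, hb, h⟩ := IsFractionRing.div_surjective (A := A0) x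
  exact ⟨a, b, nonZeroDivisors.ne_zero hb, h⟩

/-- the function underlying `lam` -/
noncomputable def lamFun (x : kk) : kk :=
  algebraMap A0 kk (lamA ((exists_frac x).choose * (exists_frac x).choose_spec.choose)) /
    algebraMap A0 kk (exists_frac x).choose_spec.choose

lemma lamFun_div (a b : A0) (hb : b ≠ 0) :
    lamFun (algebraMap A0 kk a / algebraMap A0 kk b) =
      algebraMap A0 kk (lamA (a * b)) / algebraMap A0 kk b := by
  set x := algebraMap A0 kk a / algebraMap A0 kk b with hx
  obtain ⟨h1, h2⟩ := (exists_frac x).choose_spec.choose_spec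
  refine lam_wd _ _ _ _ h1 hb ?_
  rw [hx, div_eq_div_iff (by simpa using h1) (by simpa using hb), ← map_mul, ← map_mul] at h2
  exact (IsFractionRing.injective A0 kk) h2

/-- the additive `2⁻¹`-linear map on `kk` -/
noncomputable def lam : kk →+ kk where
  toFun := lamFun
  map_zero' := by
    have h : (0 : kk) = algebraMap A0 kk 0 / algebraMap A0 kk 1 := by simp
    rw [h, lamFun_div _ _ one_ne_zero]
    simp
  map_add' x y := by
    obtain ⟨a, b, hb, rfl⟩ := exists_frac x
    obtain ⟨c, d, hd, rfl⟩ := exists_frac y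
    have h1 : algebraMap A0 kk b ≠ 0 := by simpa using hb
    have h2 : algebraMap A0 kk d ≠ 0 := by simpa using hd
    have e : algebraMap A0 kk a / algebraMap A0 kk b + algebraMap A0 kk c / algebraMap A0 kk d
        = algebraMap A0 kk (a * d + b * c) / algebraMap A0 kk (b * d) := by
      rw [div_add_div _ _ h1 h2]; simp only [map_add, map_mul]
    rw [e, lamFun_div _ _ hb, lamFun_div _ _ hd, lamFun_div _ _ (mul_ne_zero hb hd),
      show (a * d + b * c) * (b * d) = d ^ 2 * (a * b) + b ^ 2 * (c * d) by ring,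
      map_add, lamA_sq_mul, lamA_sq_mul]
    simp only [map_add, map_mul]
    field_simp

lemma lam_div (a b : A0) (hb : b ≠ 0) :
    lam (algebraMap A0 kk a / algebraMap A0 kk b) =
      algebraMap A0 kk (lamA (a * b)) / algebraMap A0 kk b := lamFun_div a b hb

lemma lam_sq_mul (s f : kk) : lam (s ^ 2 * f) = s * lam f := by
  obtain ⟨a, b, hb, rfl⟩ := exists_frac s
  obtain ⟨c, d, hd, rfl⟩ := exists_frac f
  have h1 : algebraMap A0 kk b ≠ 0 := by simpa using hb
  have h2 : algebraMap A0 kk d ≠ 0 := by simpa using hd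
  have e : (algebraMap A0 kk a / algebraMap A0 kk b) ^ 2 *
      (algebraMap A0 kk c / algebraMap A0 kk d)
        = algebraMap A0 kk (a ^ 2 * c) / algebraMap A0 kk (b ^ 2 * d) := by
    simp only [map_mul, map_pow]
    field_simp
  rw [e, lam_div _ _ hd, lam_div _ _ (mul_ne_zero (pow_ne_zero 2 hb) hd),
    show (a ^ 2 * c) * (b ^ 2 * d) = (a * b) ^ 2 * (c * d) by ring, lamA_sq_mul]
  simp only [map_mul, map_pow]
  field_simp

lemma lam_one : lam 1 = 1 := by
  have h : (1 : kk) = algebraMap A0 kk 1 / algebraMap A0 kk 1 := by simp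
  rw [h, lam_div _ _ one_ne_zero, mul_one, lamA_one]

/-- polynomials in the variables `X_i`, `i < j` -/
noncomputable abbrev AA (j : ℕ) : Subalgebra (ZMod 2) A0 := supported (ZMod 2) {i | i < j}

lemma mem_AA {j : ℕ} {p : A0} :
    p ∈ AA j ↔ ∀ m ∈ p.support, ∀ i, m i ≠ 0 → i < j := by
  rw [AA, mem_supported]
  constructor
  · intro h m hm i hi
    exact h ((mem_vars_iff_mem_support i).2 ⟨m, hm, Finsupp.mem_support_iff.2 hi⟩)
  · intro h i hi
    obtain ⟨m, hm, hi⟩ := (mem_vars_iff_mem_support i).1 hi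
    exact h m hm i (Finsupp.mem_support_iff.1 hi)

lemma monomial_mem_AA {j : ℕ} {m : ℕ →₀ ℕ} (h : ∀ i, m i ≠ 0 → i < j) (c : ZMod 2) :
    monomial m c ∈ AA j := by
  classical
  rw [mem_AA]
  intro m' hm' i hi
  have : m' = m := by
    by_contra hne
    rw [mem_support_iff, coeff_monomial, if_neg (fun h => hne h.symm)] at hm'
    exact hm' rfl
  subst this
  exact h i hi

lemma lamA_mem {j : ℕ} {p : A0} (hp : p ∈ AA j) : lamA p ∈ AA j := by
  classical
  rw [p.as_sum, map_sum]
  refine Subalgebra.sum_mem _ fun m hm => ?_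
  rw [lamA_monomial]
  split_ifs
  · refine monomial_mem_AA (fun i hi => mem_AA.1 hp m hm i ?_) _
    rw [half_apply] at hi
    intro h
    rw [h] at hi
    exact hi rfl
  · exact Subalgebra.zero_mem _

lemma lamA_X_mul {j : ℕ} {p : A0} (hp : p ∈ AA j) : lamA (X j * p) = 0 := by
  classical
  rw [p.as_sum, Finset.mul_sum, map_sum]
  refine Finset.sum_eq_zero fun m hm => ?_
  rw [X, monomial_mul, lamA_monomial, if_neg]
  intro h
  have h1 := h j
  have h2 : m j = 0 := by
    by_contra h3
    exact lt_irrefl _ (mem_AA.1 hp m hm j h3)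
  simp [h2] at h1

/-- the subfield `F_2(X_i : i < j)` -/
noncomputable def KK (j : ℕ) : Subfield kk where
  carrier := {x | ∃ a ∈ AA j, ∃ b ∈ AA j, b ≠ 0 ∧ x = algebraMap A0 kk a / algebraMap A0 kk b}
  mul_mem' := by
    rintro _ _ ⟨a, ha, b, hb, hb0, rfl⟩ ⟨c, hc, d, hd, hd0, rfl⟩
    refine ⟨a * c, mul_mem ha hc, b * d, mul_mem hb hd, mul_ne_zero hb0 hd0, ?_⟩
    rw [div_mul_div_comm, map_mul, map_mul]
  one_mem' := ⟨1, one_mem _, 1, one_mem _, one_ne_zero, by simp⟩
  add_mem' := by
    rintro _ _ ⟨a, ha, b, hb, hb0, rfl⟩ ⟨c, hc, d, hd, hd0, rfl⟩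
    refine ⟨a * d + b * c, add_mem (mul_mem ha hd) (mul_mem hb hc), b * d, mul_mem hb hd,
      mul_ne_zero hb0 hd0, ?_⟩
    rw [div_add_div _ _ (by simpa using hb0) (by simpa using hd0)]
    simp only [map_mul, map_add]
  zero_mem' := ⟨0, zero_mem _, 1, one_mem _, one_ne_zero, by simp⟩
  neg_mem' := by
    rintro _ ⟨a, ha, b, hb, hb0, rfl⟩
    refine ⟨-a, neg_mem ha, b, hb, hb0, ?_⟩
    rw [map_neg, neg_div]
  inv_mem' := by
    rintro _ ⟨a, ha, b, hb, hb0, rfl⟩
    by_cases h : a = 0
    · refine ⟨0, zero_mem _, 1, one_mem _, one_ne_zero, ?_⟩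
      simp [h]
    · exact ⟨b, hb, a, ha, h, by rw [inv_div]⟩

lemma mem_KK {j : ℕ} {x : kk} : x ∈ KK j ↔
    ∃ a ∈ AA j, ∃ b ∈ AA j, b ≠ 0 ∧ x = algebraMap A0 kk a / algebraMap A0 kk b := Iff.rfl

lemma KK_mono {i j : ℕ} (h : i ≤ j) : KK i ≤ KK j := by
  rintro x ⟨a, ha, b, hb, hb0, rfl⟩
  have hs : AA i ≤ AA j := supported_mono fun l hl => lt_of_lt_of_le hl h
  exact ⟨a, hs ha, b, hs hb, hb0, rfl⟩

lemma exists_AA (p : A0) : ∃ j, p ∈ AA j := by
  refine ⟨p.vars.sup id + 1, ?_⟩
  rw [AA, mem_supported]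
  intro i hi
  exact Nat.lt_succ_of_le (Finset.le_sup (f := id) hi)

lemma exists_KK (x : kk) : ∃ j, x ∈ KK j := by
  obtain ⟨a, b, hb, rfl⟩ := exists_frac x
  obtain ⟨i, hi⟩ := exists_AA a
  obtain ⟨j, hj⟩ := exists_AA b
  have h1 : AA i ≤ AA (max i j) :=
    supported_mono fun l (hl : l < i) => (lt_of_lt_of_le hl (le_max_left i j) : l < max i j)
  have h2 : AA j ≤ AA (max i j) :=
    supported_mono fun l (hl : l < j) => (lt_of_lt_of_le hl (le_max_right i j) : l < max i j)
  exact ⟨max i j, a, h1 hi, b, h2 hj, hb, rfl⟩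

/-- the variable `X_j` as an element of the field -/
noncomputable def xx (j : ℕ) : kk := algebraMap A0 kk (X j)

lemma xx_ne (j : ℕ) : xx j ≠ 0 := by
  simp [xx, X_ne_zero]

lemma xx_mem {i j : ℕ} (h : i < j) : xx i ∈ KK j := by
  refine ⟨X i, ?_, 1, one_mem _, one_ne_zero, by simp [xx]⟩
  exact X_mem_supported.2 h

lemma lam_mem {j : ℕ} {x : kk} (hx : x ∈ KK j) : lam x ∈ KK j := by
  obtain ⟨a, ha, b, hb, hb0, rfl⟩ := hx
  rw [lam_div _ _ hb0]
  exact ⟨_, lamA_mem (mul_mem ha hb), b, hb, hb0, rfl⟩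

lemma lam_xx_mul {j : ℕ} {x : kk} (hx : x ∈ KK j) : lam (xx j * x) = 0 := by
  obtain ⟨a, ha, b, hb, hb0, rfl⟩ := hx
  rw [xx, ← mul_div_assoc, ← map_mul, lam_div _ _ hb0, mul_assoc, lamA_X_mul (mul_mem ha hb)]
  simp

lemma lam_xx_inv_mul {j : ℕ} {x : kk} (hx : x ∈ KK j) : lam ((xx j)⁻¹ * x) = 0 := by
  have h : (xx j)⁻¹ * x = ((xx j)⁻¹) ^ 2 * (xx j * x) := by
    have := xx_ne j
    field_simp
  rw [h, lam_sq_mul, lam_xx_mul hx, mul_zero]

/-- common denominators -/
lemma common_denom {j : ℕ} (s : Finset ℕ) (c : ℕ → kk) (hc : ∀ a, c a ∈ KK j) :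
    ∃ b ∈ AA j, b ≠ 0 ∧ ∀ a ∈ s, ∃ p ∈ AA j, c a * algebraMap A0 kk b = algebraMap A0 kk p := by
  classical
  induction s using Finset.induction_on with
  | empty => exact ⟨1, one_mem _, one_ne_zero, by simp⟩
  | insert i s hi ih =>
    obtain ⟨b, hb, hb0, h⟩ := ih
    obtain ⟨u, hu, v, hv, hv0, h2⟩ := hc i
    refine ⟨b * v, mul_mem hb hv, mul_ne_zero hb0 hv0, fun a ha => ?_⟩
    rcases Finset.mem_insert.1 ha with rfl | ha
    · refine ⟨u * b, mul_mem hu hb, ?_⟩
      have : algebraMap A0 kk v ≠ 0 := by simpa using hv0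
      rw [h2, map_mul, map_mul]
      field_simp
    · obtain ⟨p, hp, h3⟩ := h a ha
      refine ⟨p * v, mul_mem hp hv, ?_⟩
      rw [map_mul, map_mul, ← h3]
      ring

lemma coeff_X_pow_mul_of_mem {j : ℕ} {p : A0} (hp : p ∈ AA j) (a b : ℕ) (m : ℕ →₀ ℕ)
    (hm : m j = 0) :
    coeff (m + Finsupp.single j b) (X j ^ a * p) = if a = b then coeff m p else 0 := by
  classical
  rw [X_pow_eq_monomial, coeff_monomial_mul', one_mul]
  by_cases hab : a ≤ b
  · have h1 : Finsupp.single j a ≤ m + Finsupp.single j b := by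
      intro i
      by_cases hi : i = j
      · subst hi; simp; omega
      · simp [hi]
    rw [if_pos h1]
    have h2 : m + Finsupp.single j b - Finsupp.single j a = m + Finsupp.single j (b - a) := by
      ext i
      by_cases hi : i = j
      · subst hi; simp; omega
      · simp [hi]
    rw [h2]
    split_ifs with h
    · subst h; simp
    · by_contra hne
      have := mem_AA.1 hp _ (mem_support_iff.2 hne) j
      simp only [Finsupp.add_apply, Finsupp.single_eq_same, hm, zero_add] at this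
      exact lt_irrefl _ (this (by omega))
  · rw [if_neg, if_neg (by omega)]
    intro h
    have := h j
    simp [hm] at this
    omega

/-- `X_j` is transcendental over `KK j`. -/
lemma xx_transc {j : ℕ} (s : Finset ℕ) (c : ℕ → kk) (hc : ∀ a, c a ∈ KK j)
    (h : ∑ a ∈ s, c a * xx j ^ a = 0) : ∀ a ∈ s, c a = 0 := by
  classical
  obtain ⟨b, hb, hb0, h1⟩ := common_denom s c hc
  choose! p hp hp2 using h1
  have h2 : ∑ a ∈ s, X j ^ a * p a = (0 : A0) := by
    apply IsFractionRing.injective A0 kk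
    rw [map_sum, map_zero]
    have : ∀ a ∈ s, algebraMap A0 kk (X j ^ a * p a) =
        (c a * xx j ^ a) * algebraMap A0 kk b := by
      intro a ha
      rw [map_mul, ← hp2 a ha, map_pow, xx]
      ring
    rw [Finset.sum_congr rfl this, ← Finset.sum_mul, h, zero_mul]
  intro a ha
  have h3 : p a = 0 := by
    ext m
    by_cases hm : m j = 0
    · have h4 := congrArg (coeff (m + Finsupp.single j a)) h2
      rw [coeff_sum, Finset.sum_eq_single_of_mem a ha] at h4
      · rw [coeff_X_pow_mul_of_mem (hp a ha) a a m hm, if_pos rfl] at h4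
        simpa using h4
      · intro a' ha' hne
        rw [coeff_X_pow_mul_of_mem (hp a' ha') a' a m hm, if_neg hne]
    · rw [coeff_zero]
      by_contra hne
      exact lt_irrefl _ (mem_AA.1 (hp a ha) _ (mem_support_iff.2 hne) j hm)
  have h5 := hp2 a ha
  rw [h3, map_zero, mul_eq_zero] at h5
  rcases h5 with h5 | h5
  · exact h5
  · exact absurd h5 (by simpa using hb0)

lemma xx_not_mem {j : ℕ} {c : kk} (hc : c ∈ KK j) (h0 : c ≠ 0) : xx j * c ∉ KK j := by
  intro h
  have h1 : xx j ∈ KK j := by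
    have := (KK j).mul_mem h ((KK j).inv_mem hc)
    rwa [mul_assoc, mul_inv_cancel₀ h0, mul_one] at this
  have h2 := xx_transc (j := j) {0, 1} (fun a => if a = 0 then -xx j else if a = 1 then 1 else 0)
    (by
      intro a
      split_ifs
      · exact (KK j).neg_mem h1
      · exact (KK j).one_mem
      · exact (KK j).zero_mem) (by simp) 1 (by simp)
  simp at h2

end Pool.Agent.Lib_helper70.FS
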