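import Pool.Agent.Lib_helper70.FSTheta

set_option autoImplicit false

/-!
The `2⁻¹`-linear map `phi` on `kk⟦x, y⟧` adapted to all coordinate systems `(gg n, gg (n+1))`.
-/

namespace Pool.Agent.Lib_helper70.FS

open MvPowerSeries

/-- the standard map in the `n`-th coordinates -/
noncomputable def phiN (n : ℕ) : PS →+ PS :=
  ((Th n : PS →+* PS) : PS →+ PS).comp (phiStd.comp ((Ti n : PS →+* PS) : PS →+ PS))

lemma phiN_apply (n : ℕ) (f : PS) : phiN n f = Th n (phiStd (Ti n f)) := rfl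

lemma phiN_sq_mul (n : ℕ) (s f : PS) : phiN n (s ^ 2 * f) = s * phiN n f := by
  rw [phiN_apply, map_mul, map_pow, phiStd_sq_mul, map_mul, Th_Ti, phiN_apply]

lemma phiN_one (n : ℕ) : phiN n 1 = 1 := by
  rw [phiN_apply, map_one, phiStd_one, map_one]

lemma le_order_phiN (n : ℕ) (f : PS) (D : ℕ) (h : ((2 * D : ℕ) : ℕ∞) ≤ f.order) :
    (D : ℕ∞) ≤ (phiN n f).order := by
  rw [phiN_apply]
  exact (le_order_phiStd _ D (h.trans (le_order_Ti n f))).trans (le_order_Th n _)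

lemma C_mul_monomial (c : kk) (m : Fin 2 →₀ ℕ) : (C c : PS) * monomial m 1 = monomial m c := by
  have h : (C c : PS) = monomial 0 c := rfl
  rw [h, monomial_mul_monomial, zero_add, mul_one]

lemma phiStd_CX0 (c : kk) : phiStd (C c * X 0) = 0 := by
  rw [X, C_mul_monomial]
  apply phiStd_monomial_of_odd
  intro h
  have := h 0
  simp at this

lemma phiStd_CX1 (c : kk) : phiStd (C c * X 1) = 0 := by
  rw [X, C_mul_monomial]
  apply phiStd_monomial_of_odd
  intro h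
  have := h 1
  simp at this

lemma phiStd_CX0X1 (c : kk) : phiStd (C c * X 0 * X 1) = 0 := by
  rw [X, X, C_mul_monomial, monomial_mul_monomial, mul_one]
  apply phiStd_monomial_of_odd
  intro h
  have := h 1
  simp at this

lemma compat_aux (n : ℕ) {c : kk} (hc : c ∈ KK (2 * n)) :
    th n (phiStd (ti n (C c))) = phiStd (C c) ∧
    th n (phiStd (ti n (C c * X 0))) = phiStd (C c * X 0) ∧
    th n (phiStd (ti n (C c * X 1))) = phiStd (C c * X 1) ∧
    th n (phiStd (ti n (C c * X 0 * X 1))) = phiStd (C c * X 0 * X 1) := by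
  have hl : lam ((tt n)⁻¹ * c) = 0 := lam_xx_inv_mul hc
  refine ⟨?_, ?_, ?_, ?_⟩
  · rw [ti_C, phiStd_C, th_C]
  · rw [map_mul, ti_C, ti_X0, phiStd_CX0]
    have e : (C c : PS) * (C (tt n)⁻¹ * (X 1 + X 0 ^ 2)) =
        C ((tt n)⁻¹ * c) * X 1 + X 0 ^ 2 * C ((tt n)⁻¹ * c) := by
      rw [map_mul]; ring
    rw [e, map_add, phiStd_CX1, phiStd_sq_mul, phiStd_C, hl, map_zero, mul_zero, add_zero, map_zero]
  · rw [map_mul, ti_C, ti_X1, phiStd_CX0, phiStd_CX1, map_zero]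
  · rw [map_mul (ti n), map_mul (ti n), ti_C, ti_X0, ti_X1, phiStd_CX0X1]
    have e : (C c : PS) * (C (tt n)⁻¹ * (X 1 + X 0 ^ 2)) * X 0 =
        C ((tt n)⁻¹ * c) * X 0 * X 1 + X 0 ^ 2 * (C ((tt n)⁻¹ * c) * X 0) := by
      rw [map_mul]; ring
    rw [e, map_add, phiStd_CX0X1, phiStd_sq_mul, phiStd_CX0, mul_zero, add_zero, map_zero]

lemma monomial_eq (m : Fin 2 →₀ ℕ) (c : kk) :
    (monomial m c : PS) = C c * X 0 ^ (m 0) * X 1 ^ (m 1) := by
  rw [X_pow_eq, X_pow_eq, C_mul_monomial, monomial_mul_monomial, mul_one]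
  congr 2
  apply Finsupp.ext
  intro i
  fin_cases i <;> simp

lemma compat (n : ℕ) {f : PS} (hf : f ∈ PN n) : th n (phiStd (ti n f)) = phiStd f := by
  refine Pol_induction_monomial (p := fun f => th n (phiStd (ti n f)) = phiStd f) ?_ ?_ f hf
  · intro m c hc
    obtain ⟨h1, h2, h3, h4⟩ := compat_aux n hc
    have key : ∀ (s g : PS), th n (phiStd (ti n g)) = phiStd g →
        th n (phiStd (ti n (s ^ 2 * g))) = phiStd (s ^ 2 * g) := by
      intro s g hg
      rw [map_mul, map_pow, phiStd_sq_mul, map_mul, th_ti, hg, phiStd_sq_mul]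
    rw [monomial_eq]
    obtain ⟨a, ha⟩ := Nat.even_or_odd' (m 0)
    obtain ⟨b, hb⟩ := Nat.even_or_odd' (m 1)
    rcases ha with ha | ha <;> rcases hb with hb | hb
    · have e : (C c : PS) * X 0 ^ (m 0) * X 1 ^ (m 1) = (X 0 ^ a * X 1 ^ b) ^ 2 * C c := by
        rw [ha, hb, pow_mul, pow_mul]; ring
      rw [e]; exact key _ _ h1
    · have e : (C c : PS) * X 0 ^ (m 0) * X 1 ^ (m 1) =
          (X 0 ^ a * X 1 ^ b) ^ 2 * (C c * X 1) := by
        rw [ha, hb, pow_succ (X 1 : PS) (2 * b), pow_mul, pow_mul]; ring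
      rw [e]; exact key _ _ h3
    · have e : (C c : PS) * X 0 ^ (m 0) * X 1 ^ (m 1) =
          (X 0 ^ a * X 1 ^ b) ^ 2 * (C c * X 0) := by
        rw [ha, hb, pow_succ (X 0 : PS) (2 * a), pow_mul, pow_mul]; ring
      rw [e]; exact key _ _ h2
    · have e : (C c : PS) * X 0 ^ (m 0) * X 1 ^ (m 1) =
          (X 0 ^ a * X 1 ^ b) ^ 2 * (C c * X 0 * X 1) := by
        rw [ha, hb, pow_succ (X 0 : PS) (2 * a), pow_succ (X 1 : PS) (2 * b), pow_mul, pow_mul]; ring
      rw [e]; exact key _ _ h4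
  · intro f g hf hg
    simp only [map_add, hf, hg]

lemma phiN_succ {n : ℕ} {f : PS} (hf : f ∈ PN n) : phiN (n + 1) f = phiN n f := by
  rw [phiN_apply, phiN_apply, Th_succ, Ti_succ, compat n (Ti_mem le_rfl hf)]

lemma phiN_eq {n N : ℕ} (h : n ≤ N) {f : PS} (hf : f ∈ PN n) : phiN N f = phiN n f := by
  induction N, h using Nat.le_induction with
  | base => rfl
  | succ N hN ih => rw [phiN_succ (PN_mono hN hf), ih]

lemma phiN_mem {n : ℕ} {f : PS} (hf : f ∈ PN n) : phiN n f ∈ PN n := by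
  rw [phiN_apply]
  exact Th_mem le_rfl (phiStd_mem_Pol (fun _ hc => lam_mem hc) (Ti_mem le_rfl hf))

lemma coeff_phiN_eventually (f : PS) (m : Fin 2 →₀ ℕ) :
    ∃ v, ∀ᶠ n in Filter.atTop, coeff m (phiN n f) = v := by
  obtain ⟨p, hp, hr⟩ := exists_trunc f (2 * (m.degree + 1))
  obtain ⟨l, hl⟩ := exists_PN hp
  refine ⟨coeff m (phiN l p), Filter.eventually_atTop.2 ⟨l, fun n hn => ?_⟩⟩
  have e : f = p + (f - p) := by ring
  rw [e, map_add, map_add, phiN_eq hn hl, coeff_of_lt_order (f := phiN n (f - p)), add_zero]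
  refine lt_of_lt_of_le ?_ (le_order_phiN n _ (m.degree + 1) hr)
  exact_mod_cast Nat.lt_succ_self _

/-- the limit value of the coefficients -/
noncomputable def phiC (f : PS) (m : Fin 2 →₀ ℕ) : kk := (coeff_phiN_eventually f m).choose

lemma phiC_spec (f : PS) (m : Fin 2 →₀ ℕ) :
    ∀ᶠ n in Filter.atTop, coeff m (phiN n f) = phiC f m :=
  (coeff_phiN_eventually f m).choose_spec

lemma phiC_eq {f : PS} {m : Fin 2 →₀ ℕ} {v : kk}
    (h : ∀ᶠ n in Filter.atTop, coeff m (phiN n f) = v) : phiC f m = v := by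
  obtain ⟨n, h1, h2⟩ := (h.and (phiC_spec f m)).exists
  rw [← h2, h1]

/-- the `2⁻¹`-linear map -/
noncomputable def phi : PS →+ PS where
  toFun f := fun m => phiC f m
  map_zero' := by
    funext m
    apply phiC_eq
    exact Filter.Eventually.of_forall fun n => by rw [map_zero, map_zero]; rfl
  map_add' f g := by
    funext m
    apply phiC_eq
    filter_upwards [phiC_spec f m, phiC_spec g m] with n h1 h2
    rw [map_add, map_add, h1, h2]
    rfl

lemma coeff_phi (f : PS) (m : Fin 2 →₀ ℕ) : coeff m (phi f) = phiC f m := rfl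

lemma phi_spec (f : PS) (m : Fin 2 →₀ ℕ) :
    ∀ᶠ n in Filter.atTop, coeff m (phiN n f) = coeff m (phi f) := phiC_spec f m

lemma phi_sq_mul (s f : PS) : phi (s ^ 2 * f) = s * phi f := by
  classical
  ext m
  rw [coeff_phi]
  apply phiC_eq
  have h : ∀ᶠ n in Filter.atTop, ∀ ab ∈ Finset.HasAntidiagonal.antidiagonal m,
      coeff ab.2 (phiN n f) = coeff ab.2 (phi f) :=
    (Filter.eventually_all_finset _).2 fun ab _ => phi_spec f ab.2
  filter_upwards [h] with n hn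
  rw [phiN_sq_mul, coeff_mul, coeff_mul]
  exact Finset.sum_congr rfl fun ab hab => by rw [hn ab hab]

lemma phi_of_PN {n : ℕ} {f : PS} (hf : f ∈ PN n) : phi f = phiN n f := by
  ext m
  rw [coeff_phi]
  apply phiC_eq
  exact Filter.eventually_atTop.2 ⟨n, fun N hN => by rw [phiN_eq hN hf]⟩

lemma phi_one : phi 1 = 1 := by
  rw [phi_of_PN (n := 0) (one_mem _), phiN_one]

lemma phi_mem {n : ℕ} {f : PS} (hf : f ∈ PN n) : phi f ∈ PN n := by
  rw [phi_of_PN hf]; exact phiN_mem hf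

lemma phiStd_X1_mul {K : Subfield kk} (hK : ∀ c ∈ K, lam c ∈ K) {f : PS} (hf : f ∈ Pol K) :
    ∃ q ∈ Pol K, phiStd (X 1 * f) = X 1 * q := by
  have h1 : X 1 ∣ phiStd (X 1 * f) := by
    rw [X_dvd_iff]
    intro m hm
    rw [coeff_phiStd]
    have h2 : (X 1 : PS) ∣ X 1 * f := dvd_mul_right _ _
    rw [X_dvd_iff] at h2
    rw [h2 (2 • m) (by simp [hm]), map_zero]
  obtain ⟨q, hq⟩ := h1
  refine ⟨q, ?_, hq⟩
  apply mem_Pol_of_X_mul (i := 1)
  rw [← hq]
  exact phiStd_mem_Pol hK (mul_mem (X_mem_Pol _ _) hf)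

/-- `phi` preserves the ideals generated by the curves. -/
lemma phi_gg_mul {n : ℕ} {f : PS} (hf : f ∈ PN (n + 1)) :
    ∃ q ∈ PN (n + 1), phi (gg (n + 2) * f) = gg (n + 2) * q := by
  obtain ⟨q, hq, h⟩ := phiStd_X1_mul (K := KK (2 * (n + 1))) (fun _ hc => lam_mem hc)
    (Ti_mem (n := n + 1) (m := n + 1) le_rfl hf)
  refine ⟨Th (n + 1) q, Th_mem le_rfl hq, ?_⟩
  rw [phi_of_PN (mul_mem (gg_mem n) hf), phiN_apply, map_mul, gg_succ, Ti_Th, h, map_mul]

end Pool.Agent.Lib_helper70.FS
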