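import Pool.Agent.Lib_helper70.FSField

set_option autoImplicit false

/-!
The ambient power series ring `PS = kk⟦x, y⟧` and the standard `2⁻¹`-linear map on it.
-/

namespace Pool.Agent.Lib_helper70.FS

open MvPowerSeries

/-- the ambient ring -/
abbrev PS := MvPowerSeries (Fin 2) kk

instance : CharP kk 2 := inferInstance

instance : CharP PS 2 := by
  have : Function.Injective (C (σ := Fin 2) (R := kk)) := MvPowerSeries.C_injective
  exact charP_of_injective_ringHom this 2

lemma two_smul_half {σ : Type} {m : σ →₀ ℕ} (h : ∀ i, Even (m i)) : 2 • half m = m := by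
  apply Finsupp.ext
  intro i
  rw [Finsupp.smul_apply, half_apply, smul_eq_mul]
  have := h i
  obtain ⟨r, hr⟩ := this
  omega

lemma half_two_smul {σ : Type} (m : σ →₀ ℕ) : half (2 • m) = m := by
  apply Finsupp.ext
  intro i
  rw [half_apply, Finsupp.smul_apply, smul_eq_mul]
  omega

/-- the standard `2⁻¹`-linear map -/
noncomputable def phiStd : PS →+ PS where
  toFun f := fun m => lam (coeff (2 • m) f)
  map_zero' := by
    funext m
    rw [map_zero, map_zero]; rfl
  map_add' f g := by
    funext m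
    rw [map_add, map_add]; rfl

lemma coeff_phiStd (m : Fin 2 →₀ ℕ) (f : PS) :
    coeff m (phiStd f) = lam (coeff (2 • m) f) := rfl

lemma coeff_sq_two_smul (s : PS) (m : Fin 2 →₀ ℕ) : coeff (2 • m) (s ^ 2) = (coeff m s) ^ 2 := by
  rw [← map_frobenius_expand (p := 2) (hp := two_ne_zero), coeff_map, coeff_expand_smul]
  rfl

lemma coeff_sq_of_odd (s : PS) (m : Fin 2 →₀ ℕ) (h : ¬ ∀ i, Even (m i)) :
    coeff m (s ^ 2) = 0 := by
  push Not at h
  obtain ⟨i, hi⟩ := h
  rw [← map_frobenius_expand (p := 2) (hp := two_ne_zero), coeff_map,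
    coeff_expand_of_not_dvd (i := i), map_zero]
  intro h2
  exact hi (even_iff_two_dvd.2 h2)

/-- doubling pairs of exponents -/
noncomputable def dbl : (Fin 2 →₀ ℕ) × (Fin 2 →₀ ℕ) ↪ (Fin 2 →₀ ℕ) × (Fin 2 →₀ ℕ) :=
  ⟨fun ab => (2 • ab.1, 2 • ab.2), by
      rintro ⟨a, b⟩ ⟨c, d⟩ h
      simp only [Prod.mk.injEq] at h
      have h1 := congrArg half h.1
      have h2 := congrArg half h.2
      rw [half_two_smul, half_two_smul] at h1 h2
      rw [h1, h2]⟩

lemma dbl_apply (ab : (Fin 2 →₀ ℕ) × (Fin 2 →₀ ℕ)) : dbl ab = (2 • ab.1, 2 • ab.2) := rfl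

lemma phiStd_sq_mul (s f : PS) : phiStd (s ^ 2 * f) = s * phiStd f := by
  classical
  ext m
  rw [coeff_phiStd, coeff_mul, coeff_mul, map_sum]
  have hsub : (Finset.HasAntidiagonal.antidiagonal m).map dbl ⊆
      Finset.HasAntidiagonal.antidiagonal (2 • m) := by
    intro ab hab
    obtain ⟨cd, hcd, rfl⟩ := Finset.mem_map.1 hab
    rw [Finset.HasAntidiagonal.mem_antidiagonal] at hcd ⊢
    rw [dbl_apply]
    simp only
    rw [← smul_add, hcd]
  refine (Finset.sum_subset hsub ?_).symm.trans ?_
  · rintro ⟨a, b⟩ hab hnot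
    rw [Finset.HasAntidiagonal.mem_antidiagonal] at hab
    simp only at hab ⊢
    by_cases ha : ∀ i, Even (a i)
    · exfalso
      apply hnot
      have hb : ∀ i, Even (b i) := by
        intro i
        have h1 := DFunLike.congr_fun hab i
        rw [Finsupp.add_apply, Finsupp.smul_apply, smul_eq_mul] at h1
        have h2 : Even (a i + b i) := by rw [h1]; exact even_two_mul _
        exact (Nat.even_add.1 h2).1 (ha i)
      rw [Finset.mem_map]
      refine ⟨(half a, half b), ?_, ?_⟩
      · rw [Finset.HasAntidiagonal.mem_antidiagonal]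
        apply Finsupp.ext
        intro i
        have h1 := DFunLike.congr_fun hab i
        rw [Finsupp.add_apply, Finsupp.smul_apply, smul_eq_mul] at h1
        rw [Finsupp.add_apply, half_apply, half_apply]
        obtain ⟨r, hr⟩ := ha i
        obtain ⟨s, hs⟩ := hb i
        omega
      · rw [dbl_apply]
        simp only
        rw [two_smul_half ha, two_smul_half hb]
    · rw [coeff_sq_of_odd _ _ ha, zero_mul, map_zero]
  · rw [Finset.sum_map]
    refine Finset.sum_congr rfl fun ab _ => ?_
    rw [dbl_apply]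
    simp only
    rw [coeff_sq_two_smul, lam_sq_mul, coeff_phiStd]

lemma phiStd_monomial_of_even (m : Fin 2 →₀ ℕ) (c : kk) (h : ∀ i, Even (m i)) :
    phiStd (monomial m c) = monomial (half m) (lam c) := by
  classical
  ext n
  rw [coeff_phiStd, coeff_monomial, coeff_monomial]
  by_cases hn : n = half m
  · subst hn
    rw [two_smul_half h, if_pos rfl, if_pos rfl]
  · rw [if_neg hn, if_neg, map_zero]
    intro h2
    apply hn
    rw [← h2, half_two_smul]

lemma phiStd_monomial_of_odd (m : Fin 2 →₀ ℕ) (c : kk) (h : ¬ ∀ i, Even (m i)) :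
    phiStd (monomial m c) = 0 := by
  classical
  ext n
  rw [coeff_phiStd, coeff_monomial, if_neg, map_zero, map_zero]
  rintro rfl
  apply h
  intro i
  simp

lemma phiStd_C (c : kk) : phiStd (C c) = C (lam c) := by
  have h : (C c : PS) = monomial 0 c := rfl
  have h2 : half (0 : Fin 2 →₀ ℕ) = 0 := by
    apply Finsupp.ext
    intro i
    simp [half]
  rw [h, phiStd_monomial_of_even _ _ (by simp), h2]
  rfl

lemma phiStd_one : phiStd 1 = 1 := by
  have h := phiStd_C 1
  rwa [lam_one, map_one] at h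

lemma le_order_phiStd (f : PS) (D : ℕ) (h : ((2 * D : ℕ) : ℕ∞) ≤ f.order) :
    (D : ℕ∞) ≤ (phiStd f).order := by
  apply MvPowerSeries.le_order
  intro m hm
  rw [coeff_phiStd, coeff_of_lt_order, map_zero]
  refine lt_of_lt_of_le ?_ h
  rw [map_nsmul, smul_eq_mul]
  norm_cast at hm ⊢
  omega

end Pool.Agent.Lib_helper70.FS
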