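import Mathlib

set_option autoImplicit false

namespace Pool.Agent.Lib70.SparseDet

open Real

/-- the curvature constant -/
noncomputable def gam : ℝ := (7 / 2 - (2 * Real.log 3 - Real.log 2)) / 49

lemma log_three_lt : Real.log 3 < 1.098880 := by
  have h1 : Real.log (256 / 243) = 8 * Real.log 2 - 5 * Real.log 3 := by
    rw [Real.log_div (by norm_num) (by norm_num)]
    rw [show (256 : ℝ) = 2 ^ 8 by norm_num, show (243 : ℝ) = 3 ^ 5 by norm_num,
      Real.log_pow, Real.log_pow]
    norm_num
  have h2 : 1 - (256 / 243 : ℝ)⁻¹ ≤ Real.log (256 / 243) :=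
    Real.one_sub_inv_le_log_of_pos (by norm_num)
  have h3 := Real.log_two_lt_d9
  have h4 := Real.log_two_gt_d9
  rw [h1] at h2
  norm_num at h2 h3 h4 ⊢
  linarith

lemma log_three_gt : 1.098334 < Real.log 3 := by
  have h1 : Real.log (256 / 243) = 8 * Real.log 2 - 5 * Real.log 3 := by
    rw [Real.log_div (by norm_num) (by norm_num)]
    rw [show (256 : ℝ) = 2 ^ 8 by norm_num, show (243 : ℝ) = 3 ^ 5 by norm_num,
      Real.log_pow, Real.log_pow]
    norm_num
  have h2 : Real.log (256 / 243) ≤ 256 / 243 - 1 :=
    Real.log_le_sub_one_of_pos (by norm_num)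
  have h3 := Real.log_two_lt_d9
  have h4 := Real.log_two_gt_d9
  rw [h1] at h2
  norm_num at h2 h3 h4 ⊢
  linarith

lemma gam_lt : gam < 0.040746 := by
  have h3 := Real.log_two_lt_d9
  have h4 := Real.log_two_gt_d9
  have h5 := log_three_lt
  have h6 := log_three_gt
  unfold gam
  norm_num at h3 h4 h5 h6 ⊢
  linarith

lemma gam_gt : 0.040720 < gam := by
  have h3 := Real.log_two_lt_d9
  have h4 := Real.log_two_gt_d9
  have h5 := log_three_lt
  have h6 := log_three_gt
  unfold gam
  norm_num at h3 h4 h5 h6 ⊢
  linarith

/-- the gap function -/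
noncomputable def gap (t : ℝ) : ℝ :=
  Real.log 2 + (t - 2) / 2 - gam * (t - 2) ^ 2 - Real.log t

lemma gap_two : gap 2 = 0 := by simp [gap]

lemma gap_nine : gap 9 = 0 := by
  have : Real.log 9 = 2 * Real.log 3 := by
    rw [show (9 : ℝ) = 3 ^ 2 by norm_num, Real.log_pow]; norm_num
  simp only [gap, this, gam]
  ring

lemma hasDerivAt_gap (t : ℝ) (ht : 0 < t) :
    HasDerivAt gap ((t - 2) * (1 / (2 * t) - 2 * gam)) t := by
  have h1 : HasDerivAt (fun t : ℝ => Real.log 2 + (t - 2) / 2 - gam * (t - 2) ^ 2 - Real.log t)
      (0 + 1 / 2 - gam * (2 * (t - 2) ^ 1 * 1) - t⁻¹) t := by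
    apply HasDerivAt.sub
    · apply HasDerivAt.sub
      · apply HasDerivAt.add
        · exact hasDerivAt_const t _
        · exact ((hasDerivAt_id t).sub_const 2).div_const 2
      · apply HasDerivAt.const_mul
        have := ((hasDerivAt_id t).sub_const 2).pow 2
        simpa using! this
    · exact Real.hasDerivAt_log ht.ne'
  have h2 : (t - 2) * (1 / (2 * t) - 2 * gam)
      = 0 + 1 / 2 - gam * (2 * (t - 2) ^ 1 * 1) - t⁻¹ := by
    field_simp
    ring
  rw [h2]
  exact h1

lemma continuousOn_gap : ContinuousOn gap (Set.Ioi 0) := fun t ht =>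
  (hasDerivAt_gap t ht).continuousAt.continuousWithinAt

lemma gap_nonneg (t : ℝ) (h0 : 0 < t) (h9 : t ≤ 9) : 0 ≤ gap t := by
  have hg1 := gam_lt
  have hg2 := gam_gt
  norm_num at hg1 hg2
  have hgpos : 0 < gam := by linarith
  rcases le_total t 2 with h | h
  · -- antitone on (0, 2]
    have hanti : AntitoneOn gap (Set.Icc t 2) := by
      apply antitoneOn_of_deriv_nonpos (convex_Icc _ _)
      · exact continuousOn_gap.mono (fun x hx => lt_of_lt_of_le h0 hx.1)
      · intro x hx
        rw [interior_Icc] at hx
        exact (hasDerivAt_gap x (h0.trans hx.1)).differentiableAt.differentiableWithinAt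
      · intro x hx
        rw [interior_Icc] at hx
        rw [(hasDerivAt_gap x (h0.trans hx.1)).deriv]
        have hx0 : 0 < x := h0.trans hx.1
        apply mul_nonpos_of_nonpos_of_nonneg
        · linarith [hx.2]
        · have : 1 / (2 * x) ≥ 1 / 4 := by
            apply one_div_le_one_div_of_le (by positivity)
            linarith [hx.2]
          linarith
    have := hanti (Set.left_mem_Icc.mpr h) (Set.right_mem_Icc.mpr h) h
    rw [gap_two] at this
    exact this
  · rcases le_total t (1 / (4 * gam)) with h' | h'
    · have hmono : MonotoneOn gap (Set.Icc 2 t) := by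
        apply monotoneOn_of_deriv_nonneg (convex_Icc _ _)
        · exact continuousOn_gap.mono (fun x hx => lt_of_lt_of_le (by norm_num) hx.1)
        · intro x hx
          rw [interior_Icc] at hx
          exact (hasDerivAt_gap x (by linarith [hx.1])).differentiableAt.differentiableWithinAt
        · intro x hx
          rw [interior_Icc] at hx
          have hx0 : 0 < x := by linarith [hx.1]
          rw [(hasDerivAt_gap x hx0).deriv]
          apply mul_nonneg
          · linarith [hx.1]
          · have hx1 : x ≤ 1 / (4 * gam) := by linarith [hx.2]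
            rw [le_div_iff₀ (by positivity)] at hx1
            have : 2 * gam ≤ 1 / (2 * x) := by
              rw [le_div_iff₀ (by positivity)]
              linarith
            linarith
      have := hmono (Set.left_mem_Icc.mpr h) (Set.right_mem_Icc.mpr h) h
      rw [gap_two] at this
      exact this
    · have hanti : AntitoneOn gap (Set.Icc t 9) := by
        apply antitoneOn_of_deriv_nonpos (convex_Icc _ _)
        · exact continuousOn_gap.mono (fun x hx => lt_of_lt_of_le h0 hx.1)
        · intro x hx
          rw [interior_Icc] at hx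
          exact (hasDerivAt_gap x (h0.trans hx.1)).differentiableAt.differentiableWithinAt
        · intro x hx
          rw [interior_Icc] at hx
          have hx0 : 0 < x := h0.trans hx.1
          rw [(hasDerivAt_gap x hx0).deriv]
          apply mul_nonpos_of_nonneg_of_nonpos
          · linarith [hx.1]
          · have hx1 : 1 / (4 * gam) ≤ x := by linarith [hx.1]
            rw [div_le_iff₀ (by positivity)] at hx1
            have : 1 / (2 * x) ≤ 2 * gam := by
              rw [div_le_iff₀ (by positivity)]
              linarith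
            linarith
      have := hanti (Set.left_mem_Icc.mpr h9) (Set.right_mem_Icc.mpr h9) h9
      rw [gap_nine] at this
      exact this

/-- coefficients of the quadratic majorant on `(0,1]` -/
noncomputable def k0 : ℝ := Real.log 2 - 2 * Real.log 3 - 1 - 4 * gam
noncomputable def k1 : ℝ := 9 / 2 + 36 * gam
noncomputable def k2 : ℝ := 81 * gam

lemma log_le_quad (m : ℝ) (h0 : 0 < m) (h1 : m ≤ 1) :
    Real.log m ≤ k0 + k1 * m - k2 * m ^ 2 := by
  have h := gap_nonneg (9 * m) (by positivity) (by linarith)
  have h2 : Real.log (9 * m) = 2 * Real.log 3 + Real.log m := by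
    rw [Real.log_mul (by norm_num) h0.ne', show (9 : ℝ) = 3 ^ 2 by norm_num, Real.log_pow]
    norm_num
  simp only [gap, h2] at h
  simp only [k0, k1, k2]
  nlinarith [h]

end Pool.Agent.Lib70.SparseDet
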