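import Pool.Agent.Lib_helper70.SparseDet1

set_option autoImplicit false

namespace Pool.Agent.Lib70.SparseDet

open Real

/-- the constant `log 24 / 7` -/
noncomputable def c0 : ℝ := (3 * Real.log 2 + Real.log 3) / 7

/-- the Lagrange multiplier -/
noncomputable def bet : ℝ := 49 / 250

/-- tangent parameters -/
noncomputable def th (r : ℕ) : ℝ := if r = 2 then 17 / 40 else 1 / (r : ℝ)

/-- the local functional -/
noncomputable def Q (u v lu lv tu tv : ℝ) : ℝ :=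
  lu + lv + k0 / 2 * (u + v) + k1 * (u * v)
    - k2 * (2 * tu * (u * v) - tu ^ 2 * u + 2 * tv * (u * v) - tv ^ 2 * v - (u * v) ^ 2)
    - 2 * bet - (c0 - 3 * bet) * (u + v)

lemma Q_symm (u v lu lv tu tv : ℝ) : Q u v lu lv tu tv = Q v u lv lu tv tu := by
  unfold Q; ring

lemma Q_mono {u v lu lv lu' lv' tu tv : ℝ} (h1 : lu ≤ lu') (h2 : lv ≤ lv') :
    Q u v lu lv tu tv ≤ Q u v lu' lv' tu tv := by
  unfold Q; linarith

lemma Q33 : Q (1/3) (1/3) (Real.log 3 / 3) (Real.log 3 / 3) (1/3) (1/3) ≤ 0 := by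
  apply le_of_eq
  simp only [Q, k0, k1, k2, c0, bet, gam]
  ring

lemma Q22 : Q (1/2) (1/2) (Real.log 2 / 2) (Real.log 2 / 2) (17/40) (17/40) ≤ 0 := by
  have h1 := Real.log_two_lt_d9
  have h2 := Real.log_two_gt_d9
  have h3 := log_three_lt
  have h4 := log_three_gt
  simp only [Q, k0, k1, k2, c0, bet, gam]
  norm_num at h1 h2 h3 h4 ⊢
  linarith

lemma Q23 : Q (1/2) (1/3) (Real.log 2 / 2) (Real.log 3 / 3) (17/40) (1/3) ≤ 0 := by
  have h1 := Real.log_two_lt_d9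
  have h2 := Real.log_two_gt_d9
  have h3 := log_three_lt
  have h4 := log_three_gt
  simp only [Q, k0, k1, k2, c0, bet, gam]
  norm_num at h1 h2 h3 h4 ⊢
  linarith

lemma Q24 : Q (1/2) (1/4) (Real.log 2 / 2) (2 * Real.log 2 / 4) (17/40) (1/4) ≤ 0 := by
  have h1 := Real.log_two_lt_d9
  have h2 := Real.log_two_gt_d9
  have h3 := log_three_lt
  have h4 := log_three_gt
  simp only [Q, k0, k1, k2, c0, bet, gam]
  norm_num at h1 h2 h3 h4 ⊢
  linarith

lemma Q34 : Q (1/3) (1/4) (Real.log 3 / 3) (2 * Real.log 2 / 4) (1/3) (1/4) ≤ 0 := by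
  have h1 := Real.log_two_lt_d9
  have h2 := Real.log_two_gt_d9
  have h3 := log_three_lt
  have h4 := log_three_gt
  simp only [Q, k0, k1, k2, c0, bet, gam]
  norm_num at h1 h2 h3 h4 ⊢
  linarith

lemma Q44 : Q (1/4) (1/4) (2 * Real.log 2 / 4) (2 * Real.log 2 / 4) (1/4) (1/4) ≤ 0 := by
  have h1 := Real.log_two_lt_d9
  have h2 := Real.log_two_gt_d9
  have h3 := log_three_lt
  have h4 := log_three_gt
  simp only [Q, k0, k1, k2, c0, bet, gam]
  norm_num at h1 h2 h3 h4 ⊢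
  linarith

lemma lin_aux {a b v : ℝ} (h0 : 0 ≤ v) (h1 : v ≤ 1/5) (ha : a ≤ 0) (hb : a + b / 5 ≤ 0) :
    a + b * v ≤ 0 := by
  have h5 : 0 ≤ 1 - 5 * v := by linarith
  have e : a + b * v = (1 - 5 * v) * a + 5 * v * (a + b / 5) := by ring
  rw [e]
  have := mul_nonpos_of_nonneg_of_nonpos h5 ha
  have := mul_nonpos_of_nonneg_of_nonpos (show 0 ≤ 5 * v by linarith) hb
  linarith

lemma Q2v (v : ℝ) (h0 : 0 ≤ v) (hv : v ≤ 1/5) :
    Q (1/2) v (Real.log 2 / 2) (1/6 + (Real.log 2 + Real.log 3 - 1) * v) (17/40) v ≤ 0 := by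
  have h1 := Real.log_two_lt_d9
  have h2 := Real.log_two_gt_d9
  have h3 := log_three_lt
  have h4 := log_three_gt
  have h6 := gam_gt
  have key : Q (1/2) v (Real.log 2 / 2) (1/6 + (Real.log 2 + Real.log 3 - 1) * v) (17/40) v =
      ((Real.log 2 / 2 + 1/6 + k0 / 4 + k2 * ((17/40)^2 / 2) - 2 * bet - (c0 - 3 * bet) / 2 + k2 * (81/8000)) +
      ((Real.log 2 + Real.log 3 - 1) + k0 / 2 + k1 / 2 - k2 * (17/40) - (c0 - 3 * bet)
        - k2 * (63/400)) * v)
      - k2 * ((v - 3/20) ^ 2 * (9/20 - v)) := by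
    unfold Q; ring
  rw [key]
  have hk2 : 0 ≤ k2 * ((v - 3/20) ^ 2 * (9/20 - v)) := by
    apply mul_nonneg
    · unfold k2; norm_num at h6; linarith
    · apply mul_nonneg (by positivity); linarith
  have := lin_aux (a := Real.log 2 / 2 + 1/6 + k0 / 4 + k2 * ((17/40)^2 / 2) - 2 * bet - (c0 - 3 * bet) / 2
      + k2 * (81/8000))
    (b := (Real.log 2 + Real.log 3 - 1) + k0 / 2 + k1 / 2 - k2 * (17/40) - (c0 - 3 * bet)
      - k2 * (63/400))
    h0 hv
    (by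
      simp only [k0, k2, c0, bet, gam]
      norm_num at h1 h2 h3 h4 ⊢
      linarith)
    (by
      simp only [k0, k1, k2, c0, bet, gam]
      norm_num at h1 h2 h3 h4 ⊢
      linarith)
  linarith

lemma Q3v (v : ℝ) (h0 : 0 ≤ v) (hv : v ≤ 1/5) :
    Q (1/3) v (Real.log 3 / 3) (1/6 + (Real.log 2 + Real.log 3 - 1) * v) (1/3) v ≤ 0 := by
  have h1 := Real.log_two_lt_d9
  have h2 := Real.log_two_gt_d9
  have h3 := log_three_lt
  have h4 := log_three_gt
  have h6 := gam_gt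
  have key : Q (1/3) v (Real.log 3 / 3) (1/6 + (Real.log 2 + Real.log 3 - 1) * v) (1/3) v =
      ((Real.log 3 / 3 + 1/6 + k0 / 6 + k2 * (1/27) - 2 * bet - (c0 - 3 * bet) / 3 + k2 * (23/4000)) +
      ((Real.log 2 + Real.log 3 - 1) + k0 / 2 + k1 / 3 - k2 * (2/9) - (c0 - 3 * bet)
        - k2 * (119/1200)) * v)
      - k2 * ((v - 3/20) ^ 2 * (23/90 - v)) := by
    unfold Q; ring
  rw [key]
  have hk2 : 0 ≤ k2 * ((v - 3/20) ^ 2 * (23/90 - v)) := by
    apply mul_nonneg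
    · unfold k2; norm_num at h6; linarith
    · apply mul_nonneg (by positivity); linarith
  have := lin_aux (a := Real.log 3 / 3 + 1/6 + k0 / 6 + k2 * (1/27) - 2 * bet - (c0 - 3 * bet) / 3
      + k2 * (23/4000))
    (b := (Real.log 2 + Real.log 3 - 1) + k0 / 2 + k1 / 3 - k2 * (2/9) - (c0 - 3 * bet)
      - k2 * (119/1200))
    h0 hv
    (by
      simp only [k0, k2, c0, bet, gam]
      norm_num at h1 h2 h3 h4 ⊢
      linarith)
    (by
      simp only [k0, k1, k2, c0, bet, gam]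
      norm_num at h1 h2 h3 h4 ⊢
      linarith)
  linarith

lemma Q4v (v : ℝ) (h0 : 0 ≤ v) (hv : v ≤ 1/5) :
    Q (1/4) v (2 * Real.log 2 / 4) (1/6 + (Real.log 2 + Real.log 3 - 1) * v) (1/4) v ≤ 0 := by
  have h1 := Real.log_two_lt_d9
  have h2 := Real.log_two_gt_d9
  have h3 := log_three_lt
  have h4 := log_three_gt
  have h6 := gam_gt
  have key : Q (1/4) v (2 * Real.log 2 / 4) (1/6 + (Real.log 2 + Real.log 3 - 1) * v) (1/4) v =
      ((2 * Real.log 2 / 4 + 1/6 + k0 / 8 + k2 * (1/64) - 2 * bet - (c0 - 3 * bet) / 4 + k2 * (19/8000)) +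
      ((Real.log 2 + Real.log 3 - 1) + k0 / 2 + k1 / 4 - k2 * (1/8) - (c0 - 3 * bet)
        - k2 * (23/400)) * v)
      - k2 * ((v - 1/10) ^ 2 * (19/80 - v)) := by
    unfold Q; ring
  rw [key]
  have hk2 : 0 ≤ k2 * ((v - 1/10) ^ 2 * (19/80 - v)) := by
    apply mul_nonneg
    · unfold k2; norm_num at h6; linarith
    · apply mul_nonneg (by positivity); linarith
  have := lin_aux (a := 2 * Real.log 2 / 4 + 1/6 + k0 / 8 + k2 * (1/64) - 2 * bet - (c0 - 3 * bet) / 4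
      + k2 * (19/8000))
    (b := (Real.log 2 + Real.log 3 - 1) + k0 / 2 + k1 / 4 - k2 * (1/8) - (c0 - 3 * bet)
      - k2 * (23/400))
    h0 hv
    (by
      simp only [k0, k2, c0, bet, gam]
      norm_num at h1 h2 h3 h4 ⊢
      linarith)
    (by
      simp only [k0, k1, k2, c0, bet, gam]
      norm_num at h1 h2 h3 h4 ⊢
      linarith)
  linarith

lemma Quv (u v : ℝ) (hu0 : 0 ≤ u) (hu : u ≤ 1/5) (hv0 : 0 ≤ v) (hv : v ≤ 1/5) :
    Q u v (1/6 + (Real.log 2 + Real.log 3 - 1) * u)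
      (1/6 + (Real.log 2 + Real.log 3 - 1) * v) u v ≤ 0 := by
  have h1 := Real.log_two_lt_d9
  have h2 := Real.log_two_gt_d9
  have h3 := log_three_lt
  have h4 := log_three_gt
  have h5 := gam_lt
  have h6 := gam_gt
  have key : Q u v (1/6 + (Real.log 2 + Real.log 3 - 1) * u)
      (1/6 + (Real.log 2 + Real.log 3 - 1) * v) u v =
      (1/3 - 2 * bet) +
      ((Real.log 2 + Real.log 3 - 1) + k0 / 2 - (c0 - 3 * bet)) * (u + v) + k1 * (u * v)
      + k2 * (u ^ 3 + v ^ 3 + (u * v) ^ 2) - k2 * (2 * (u * v) * (u + v)) := by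
    unfold Q; ring
  rw [key]
  have hK : (Real.log 2 + Real.log 3 - 1) + k0 / 2 - (c0 - 3 * bet) ≤ -0.4 := by
    simp only [k0, k1, k2, c0, bet, gam]
    norm_num at h1 h2 h3 h4 ⊢
    linarith
  have hk1 : k1 ≤ 5.967 := by
    simp only [k1]
    norm_num at h5 ⊢
    linarith
  have hk2a : k2 ≤ 3.301 := by
    simp only [k2]
    norm_num at h5 ⊢
    linarith
  have hk2b : 3.298 ≤ k2 := by
    simp only [k2]
    norm_num at h6 ⊢
    linarith
  have e1 := mul_le_mul_of_nonneg_right hK (show 0 ≤ u + v by linarith)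
  have e2 := mul_le_mul_of_nonneg_right hk1 (show 0 ≤ u * v by positivity)
  have e3 := mul_le_mul_of_nonneg_right hk2a (show 0 ≤ u ^ 3 + v ^ 3 + (u * v) ^ 2 by positivity)
  have e4 := mul_le_mul_of_nonneg_right hk2b (show 0 ≤ 2 * (u * v) * (u + v) by positivity)
  have e5 : (1/3 - 2 * bet) ≤ -0.0586 := by unfold bet; norm_num
  -- numeric polynomial inequality
  have hfin : -0.0586 + -0.4 * (u + v) + 5.967 * (u * v)
      + 3.301 * (u ^ 3 + v ^ 3 + (u * v) ^ 2) - 3.298 * (2 * (u * v) * (u + v)) ≤ 0 := by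
    set s := u + v with hs
    set p := u * v with hp
    have hs0 : 0 ≤ s := by positivity
    have hs1 : s ≤ 2/5 := by linarith
    have hp0 : 0 ≤ p := by positivity
    have hp1 : 4 * p ≤ s ^ 2 := by rw [hs, hp]; nlinarith [sq_nonneg (u - v)]
    have hcube : u ^ 3 + v ^ 3 = s ^ 3 - 3 * p * s := by rw [hs, hp]; ring
    rw [hcube]
    have hp2 : p ≤ 1/25 := by nlinarith
    nlinarith [mul_nonneg hp0 hs0, mul_nonneg hp0 hp0, mul_nonneg hs0 hs0,
      mul_nonneg hs0 (sub_nonneg.mpr hs1), mul_nonneg hp0 (sub_nonneg.mpr hp2),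
      mul_nonneg hp0 (sub_nonneg.mpr hs1), mul_nonneg (mul_nonneg hs0 hs0) (sub_nonneg.mpr hs1)]
  linarith

end Pool.Agent.Lib70.SparseDet
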