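import Pool.Agent.Lib_helper70.SparseDet2

set_option autoImplicit false

namespace Pool.Agent.Lib70.SparseDet

open Real

lemma log_le_six (r : ℕ) (hr : 5 ≤ r) :
    Real.log r / r ≤ 1/6 + (Real.log 2 + Real.log 3 - 1) * (1 / (r : ℝ)) := by
  have hr0 : (0 : ℝ) < r := by
    have : 0 < r := by omega
    exact_mod_cast this
  have h1 : Real.log ((r : ℝ) / 6) ≤ (r : ℝ) / 6 - 1 :=
    Real.log_le_sub_one_of_pos (by positivity)
  have h2 : Real.log ((r : ℝ) / 6) = Real.log r - (Real.log 2 + Real.log 3) := by
    rw [Real.log_div hr0.ne' (by norm_num), show (6 : ℝ) = 2 * 3 by norm_num,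
      Real.log_mul (by norm_num) (by norm_num)]
  rw [h2] at h1
  rw [div_le_iff₀ hr0]
  have : (1/6 + (Real.log 2 + Real.log 3 - 1) * (1 / (r : ℝ))) * r
      = r / 6 + (Real.log 2 + Real.log 3 - 1) := by
    field_simp
  rw [this]
  linarith

lemma inv_le_fifth (r : ℕ) (hr : 5 ≤ r) : 1 / (r : ℝ) ≤ 1 / 5 := by
  apply one_div_le_one_div_of_le (by norm_num)
  exact_mod_cast hr

lemma inv_nonneg' (r : ℕ) : 0 ≤ 1 / (r : ℝ) := by positivity

lemma log_four' : Real.log 4 = 2 * Real.log 2 := by
  rw [show (4 : ℝ) = 2 ^ 2 by norm_num, Real.log_pow]; norm_num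

lemma th_two : th 2 = 17 / 40 := by simp [th]

lemma th_ne {r : ℕ} (h : r ≠ 2) : th r = 1 / (r : ℝ) := by simp [th, h]

/-- one ordered half of the local inequality -/
lemma local_aux (r c : ℕ) (hr : 2 ≤ r) (hrc : r ≤ c) :
    Q (1 / (r : ℝ)) (1 / (c : ℝ)) (Real.log r / r) (Real.log c / c) (th r) (th c) ≤ 0 := by
  have hc5 : c = 2 ∨ c = 3 ∨ c = 4 ∨ 5 ≤ c := by omega
  have hr5 : r = 2 ∨ r = 3 ∨ r = 4 ∨ 5 ≤ r := by omega
  rcases hc5 with h | h | h | h
  · have hr2 : r = 2 := by omega
    subst hr2; subst h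
    rw [th_two]
    simpa using! Q22
  · subst h
    rcases hr5 with h' | h' | h' | h'
    · subst h'
      rw [th_two, th_ne (by norm_num)]
      simpa using! Q23
    · subst h'
      rw [th_ne (by norm_num)]
      simpa using! Q33
    · omega
    · omega
  · subst h
    rcases hr5 with h' | h' | h' | h'
    · subst h'
      rw [th_two, th_ne (by norm_num)]
      have := Q24
      rw [← log_four'] at this
      simpa using! this
    · subst h'
      rw [th_ne (by norm_num), th_ne (by norm_num)]
      have := Q34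
      rw [← log_four'] at this
      simpa using! this
    · subst h'
      rw [th_ne (by norm_num)]
      have := Q44
      rw [← log_four'] at this
      simpa using! this
    · omega
  · rw [th_ne (r := c) (by omega)]
    have hc1 := log_le_six c h
    have hc2 := inv_le_fifth c h
    have hc3 := inv_nonneg' c
    rcases hr5 with h' | h' | h' | h'
    · subst h'
      rw [th_two]
      refine le_trans (Q_mono le_rfl hc1) ?_
      simpa using! Q2v _ hc3 hc2
    · subst h'
      rw [th_ne (by norm_num)]
      refine le_trans (Q_mono le_rfl hc1) ?_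
      simpa using! Q3v _ hc3 hc2
    · subst h'
      rw [th_ne (by norm_num)]
      refine le_trans (Q_mono le_rfl hc1) ?_
      have := Q4v _ hc3 hc2
      rw [← log_four'] at this
      simpa using! this
    · rw [th_ne (r := r) (by omega)]
      refine le_trans (Q_mono (log_le_six r h') hc1) ?_
      exact Quv _ _ (inv_nonneg' r) (inv_le_fifth r h') hc3 hc2

lemma local_ineq (r c : ℕ) (hr : 2 ≤ r) (hc : 2 ≤ c) :
    Q (1 / (r : ℝ)) (1 / (c : ℝ)) (Real.log r / r) (Real.log c / c) (th r) (th c) ≤ 0 := by
  rcases le_total r c with h | h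
  · exact local_aux r c hr h
  · rw [Q_symm]
    exact local_aux c r hc h

end Pool.Agent.Lib70.SparseDet
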