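import Pool.Agent.Lib_helper70.SparseDet3

set_option autoImplicit false

namespace Pool.Agent.Lib70.SparseDet

open Matrix Finset

lemma trace_mul_self_eq {n : ℕ} (G : Matrix (Fin n) (Fin n) ℝ) (hH : G.IsHermitian) :
    (G * G).trace = ∑ i, (hH.eigenvalues i) ^ 2 := by
  have h := hH.spectral_theorem
  set D : Matrix (Fin n) (Fin n) ℝ := diagonal (RCLike.ofReal ∘ hH.eigenvalues) with hD
  have h2 : G * G = (Unitary.conjStarAlgAut ℝ _ hH.eigenvectorUnitary) (D * D) := by
    rw [map_mul, ← h]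
  rw [h2, Unitary.conjStarAlgAut_apply, trace_mul_cycle]
  rw [Unitary.coe_star_mul_self, one_mul, hD, diagonal_mul_diagonal, trace_diagonal]
  apply Finset.sum_congr rfl
  intro i _
  simp [sq]

lemma eig_le_one {n : ℕ} (G : Matrix (Fin n) (Fin n) ℝ) (hH : G.IsHermitian)
    (h1 : (1 - G).PosSemidef) (i : Fin n) : hH.eigenvalues i ≤ 1 := by
  have h2 := h1.dotProduct_mulVec_nonneg (hH.eigenvectorBasis i).ofLp
  have h3 := hH.eigenvalues_eq i
  rw [sub_mulVec, one_mulVec, dotProduct_sub] at h2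
  have h4 : star (hH.eigenvectorBasis i).ofLp ⬝ᵥ (hH.eigenvectorBasis i).ofLp = 1 := by
    have := hH.eigenvectorBasis.orthonormal.1 i
    have h5 : inner ℝ (hH.eigenvectorBasis i) (hH.eigenvectorBasis i) = 1 := by
      rw [real_inner_self_eq_norm_sq, this]; norm_num
    rw [EuclideanSpace.inner_eq_star_dotProduct] at h5
    rw [dotProduct_comm]
    exact h5
  simp only [RCLike.re_to_real] at h3
  rw [h4, ← h3] at h2
  linarith

lemma logdet_le {n : ℕ} (G : Matrix (Fin n) (Fin n) ℝ) (hG : G.PosDef)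
    (h1 : (1 - G).PosSemidef) :
    Real.log G.det ≤ k0 * n + k1 * G.trace - k2 * (G * G).trace := by
  have hH := hG.isHermitian
  have hpos := fun i => hG.eigenvalues_pos i
  rw [hH.det_eq_prod_eigenvalues, hH.trace_eq_sum_eigenvalues, trace_mul_self_eq G hH]
  simp only [RCLike.ofReal_real_eq_id, id]
  rw [Real.log_prod (fun i _ => (hpos i).ne')]
  have : k0 * (n : ℝ) = ∑ _i : Fin n, k0 := by simp [mul_comm]
  rw [this, Finset.mul_sum, Finset.mul_sum, ← Finset.sum_add_distrib, ← Finset.sum_sub_distrib]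
  apply Finset.sum_le_sum
  intro i _
  exact log_le_quad _ (hpos i) (eig_le_one G hH h1 i)

end Pool.Agent.Lib70.SparseDet
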