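import Pool.Agent.Lib_helper70.SparseDet4

set_option autoImplicit false

namespace Pool.Agent.Lib70.SparseDet

open Matrix Finset

section setup

variable {n : ℕ} (a : Fin n → Fin n → ℝ) (R C : Fin n → ℕ)

/-- the normalised matrix -/
noncomputable def NN : Matrix (Fin n) (Fin n) ℝ :=
  diagonal (fun i => (√(R i : ℝ))⁻¹) * Matrix.of a * diagonal (fun j => (√(C j : ℝ))⁻¹)

/-- its Gram matrix -/
noncomputable def GG : Matrix (Fin n) (Fin n) ℝ := NN a R C * (NN a R C)ᵀ

/-- the squared entries of the normalised matrix -/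
noncomputable def ww (i j : Fin n) : ℝ := a i j * (1 / (R i : ℝ) * (1 / (C j : ℝ)))

lemma NN_apply (i j : Fin n) :
    NN a R C i j = (√(R i : ℝ))⁻¹ * a i j * (√(C j : ℝ))⁻¹ := by
  simp [NN, diagonal_mul, mul_diagonal]

lemma GG_apply (i k : Fin n) :
    GG a R C i k = ∑ j, NN a R C i j * NN a R C k j := by
  simp [GG, mul_apply]

lemma GG_symm (i k : Fin n) : GG a R C i k = GG a R C k i := by
  rw [GG_apply, GG_apply]
  exact Finset.sum_congr rfl (fun j _ => mul_comm _ _)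

lemma GG_posSemidef : (GG a R C).PosSemidef := by
  have := posSemidef_self_mul_conjTranspose (NN a R C)
  simpa [GG, conjTranspose_eq_transpose_of_trivial] using this

lemma GG_det : (GG a R C).det = (NN a R C).det ^ 2 := by
  rw [GG, det_mul, det_transpose]; ring

variable {a R C}

lemma cast_pos_of {m : ℕ} (h : 2 ≤ m) : (0 : ℝ) < m := by
  have : 0 < m := by omega
  exact_mod_cast this

lemma sq_eq_of_01 {x : ℝ} (h : x = 0 ∨ x = 1) : x ^ 2 = x := by
  rcases h with h | h <;> simp [h]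

lemma nonneg_of_01 {x : ℝ} (h : x = 0 ∨ x = 1) : 0 ≤ x := by
  rcases h with h | h <;> simp [h]

lemma logdet_eq (hR : ∀ i, 2 ≤ R i) (hC : ∀ j, 2 ≤ C j) (hdet : (Matrix.of a).det ≠ 0) :
    Real.log (GG a R C).det = 2 * Real.log |(Matrix.of a).det|
      - ∑ i, Real.log (R i) - ∑ j, Real.log (C j) := by
  have hR0 : ∀ i, (0 : ℝ) < R i := fun i => cast_pos_of (hR i)
  have hC0 : ∀ i, (0 : ℝ) < C i := fun i => cast_pos_of (hC i)
  have h1 : (NN a R C).det = (∏ i, (√(R i : ℝ))⁻¹) * (Matrix.of a).det * ∏ j, (√(C j : ℝ))⁻¹ := by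
    rw [NN, det_mul, det_mul, det_diagonal, det_diagonal]
  rw [GG_det, Real.log_pow, ← Real.log_abs, h1, abs_mul, abs_mul]
  have hp1 : 0 < ∏ i, (√(R i : ℝ))⁻¹ :=
    Finset.prod_pos (fun i _ => inv_pos.mpr (Real.sqrt_pos.mpr (hR0 i)))
  have hp2 : 0 < ∏ i, (√(C i : ℝ))⁻¹ :=
    Finset.prod_pos (fun i _ => inv_pos.mpr (Real.sqrt_pos.mpr (hC0 i)))
  rw [abs_of_pos hp1, abs_of_pos hp2, Real.log_mul (by positivity) hp2.ne',
    Real.log_mul hp1.ne' (by positivity), Real.log_prod, Real.log_prod]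
  · have e : ∀ m : ℕ, Real.log (√(m : ℝ))⁻¹ = - (Real.log m / 2) := by
      intro m
      rw [Real.log_inv, Real.log_sqrt (Nat.cast_nonneg m)]
    simp only [e, Finset.sum_neg_distrib, ← Finset.sum_div]
    push_cast
    ring
  · intro i _; exact (inv_pos.mpr (Real.sqrt_pos.mpr (hC0 i))).ne'
  · intro i _; exact (inv_pos.mpr (Real.sqrt_pos.mpr (hR0 i))).ne'

lemma GG_posDef (hR : ∀ i, 2 ≤ R i) (hC : ∀ j, 2 ≤ C j) (hdet : (Matrix.of a).det ≠ 0) :
    (GG a R C).PosDef := by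
  rw [(GG_posSemidef a R C).posDef_iff_det_ne_zero, GG_det]
  have hR0 : ∀ i, (0 : ℝ) < R i := fun i => cast_pos_of (hR i)
  have hC0 : ∀ i, (0 : ℝ) < C i := fun i => cast_pos_of (hC i)
  have hp1 : 0 < ∏ i, (√(R i : ℝ))⁻¹ :=
    Finset.prod_pos (fun i _ => inv_pos.mpr (Real.sqrt_pos.mpr (hR0 i)))
  have hp2 : 0 < ∏ i, (√(C i : ℝ))⁻¹ :=
    Finset.prod_pos (fun i _ => inv_pos.mpr (Real.sqrt_pos.mpr (hC0 i)))
  rw [NN, det_mul, det_mul, det_diagonal, det_diagonal]
  positivity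

lemma NN_sq (h01 : ∀ i j, a i j = 0 ∨ a i j = 1) (i j : Fin n) :
    NN a R C i j ^ 2 = ww a R C i j := by
  rw [NN_apply, ww, mul_pow, mul_pow, sq_eq_of_01 (h01 i j), inv_pow, inv_pow,
    Real.sq_sqrt (Nat.cast_nonneg _), Real.sq_sqrt (Nat.cast_nonneg _)]
  ring

lemma NN_nonneg (h01 : ∀ i j, a i j = 0 ∨ a i j = 1) (i j : Fin n) : 0 ≤ NN a R C i j := by
  rw [NN_apply]
  have := nonneg_of_01 (h01 i j)
  positivity

lemma one_sub_GG (h01 : ∀ i j, a i j = 0 ∨ a i j = 1)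
    (hR : ∀ i, 2 ≤ R i) (hC : ∀ j, 2 ≤ C j)
    (hRs : ∀ i, ∑ j, a i j = R i) (hCs : ∀ j, ∑ i, a i j = C j) :
    (1 - GG a R C).PosSemidef := by
  have hR0 : ∀ i, (0 : ℝ) < R i := fun i => cast_pos_of (hR i)
  have hC0 : ∀ i, (0 : ℝ) < C i := fun i => cast_pos_of (hC i)
  apply PosSemidef.of_dotProduct_mulVec_nonneg
  · exact isHermitian_one.sub (GG_posSemidef a R C).isHermitian
  · intro x
    rw [sub_mulVec, one_mulVec, dotProduct_sub]
    have e1 : star x ⬝ᵥ x = ∑ i, x i ^ 2 := by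
      simp [dotProduct, sq]
    have e2 : star x ⬝ᵥ GG a R C *ᵥ x = ∑ j, (∑ i, NN a R C i j * x i) ^ 2 := by
      rw [GG, ← mulVec_mulVec, dotProduct_mulVec]
      simp only [dotProduct, vecMul, mulVec, transpose_apply, star_trivial]
      apply Finset.sum_congr rfl
      intro j _
      rw [sq]
      congr 1
      apply Finset.sum_congr rfl
      intro i _
      ring
    rw [e1, e2]
    have e3 : ∀ j, (∑ i, NN a R C i j * x i) ^ 2 ≤ ∑ i, a i j * x i ^ 2 / R i := by
      intro j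
      have h1 : ∀ i, NN a R C i j * x i
          = (a i j * (√(C j : ℝ))⁻¹) * (a i j * (√(R i : ℝ))⁻¹ * x i) := by
        intro i
        rw [NN_apply]
        have := sq_eq_of_01 (h01 i j)
        calc (√(R i : ℝ))⁻¹ * a i j * (√(C j : ℝ))⁻¹ * x i
            = (√(R i : ℝ))⁻¹ * (a i j ^ 2) * (√(C j : ℝ))⁻¹ * x i := by rw [this]
          _ = _ := by ring
      simp only [h1]
      refine le_trans (Finset.sum_mul_sq_le_sq_mul_sq _ _ _) ?_
      have h2 : ∑ i, (a i j * (√(C j : ℝ))⁻¹) ^ 2 = 1 := by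
        have : ∀ i, (a i j * (√(C j : ℝ))⁻¹) ^ 2 = a i j * (C j : ℝ)⁻¹ := by
          intro i
          rw [mul_pow, sq_eq_of_01 (h01 i j), inv_pow, Real.sq_sqrt (Nat.cast_nonneg _)]
        simp only [this, ← Finset.sum_mul, hCs]
        exact mul_inv_cancel₀ (hC0 j).ne'
      rw [h2, one_mul]
      apply le_of_eq
      apply Finset.sum_congr rfl
      intro i _
      rw [mul_pow, mul_pow, sq_eq_of_01 (h01 i j), inv_pow, Real.sq_sqrt (Nat.cast_nonneg _)]
      ring
    have e4 : ∑ j, ∑ i, a i j * x i ^ 2 / R i = ∑ i, x i ^ 2 := by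
      rw [Finset.sum_comm]
      apply Finset.sum_congr rfl
      intro i _
      have : ∀ j, a i j * x i ^ 2 / R i = a i j * (x i ^ 2 / R i) := fun j => by ring
      simp only [this, ← Finset.sum_mul, hRs]
      field_simp [(hR0 i).ne']
    have := Finset.sum_le_sum (fun j (_ : j ∈ Finset.univ) => e3 j)
    rw [e4] at this
    linarith

lemma trace_GG (h01 : ∀ i j, a i j = 0 ∨ a i j = 1) :
    (GG a R C).trace = ∑ i, ∑ j, ww a R C i j := by
  simp only [trace, diag_apply, GG_apply]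
  apply Finset.sum_congr rfl
  intro i _
  apply Finset.sum_congr rfl
  intro j _
  rw [← sq, NN_sq h01]

lemma trace_GG_sq (h01 : ∀ i j, a i j = 0 ∨ a i j = 1) :
    ∑ i, (∑ j, ww a R C i j) ^ 2 + ∑ j, (∑ i, ww a R C i j) ^ 2 - ∑ i, ∑ j, (ww a R C i j) ^ 2
      ≤ (GG a R C * GG a R C).trace := by
  have e0 : (GG a R C * GG a R C).trace = ∑ i, ∑ k, (GG a R C i k) ^ 2 := by
    simp only [trace, diag_apply, mul_apply]
    apply Finset.sum_congr rfl
    intro i _
    apply Finset.sum_congr rfl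
    intro k _
    rw [GG_symm a R C k i, sq]
  -- the lower bounds
  have e1 : ∀ i k, ∑ j, ww a R C i j * ww a R C k j ≤ (GG a R C i k) ^ 2 := by
    intro i k
    rw [GG_apply]
    refine le_trans (le_of_eq ?_) (Finset.sum_sq_le_sq_sum_of_nonneg
      (fun j _ => mul_nonneg (NN_nonneg h01 i j) (NN_nonneg h01 k j)))
    apply Finset.sum_congr rfl
    intro j _
    rw [mul_pow, NN_sq h01, NN_sq h01]
  have e2 : ∀ i, GG a R C i i = ∑ j, ww a R C i j := by
    intro i
    rw [GG_apply]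
    apply Finset.sum_congr rfl
    intro j _
    rw [← sq, NN_sq h01]
  have e3 : ∀ i, ∑ k, ∑ j, ww a R C i j * ww a R C k j
      + ((∑ j, ww a R C i j) ^ 2 - ∑ j, ww a R C i j * ww a R C i j)
      ≤ ∑ k, (GG a R C i k) ^ 2 := by
    intro i
    rw [← Finset.add_sum_erase _ _ (Finset.mem_univ i),
      ← Finset.add_sum_erase (a := i) Finset.univ (fun k => (GG a R C i k) ^ 2) (Finset.mem_univ i)]
    have := Finset.sum_le_sum (fun k (_ : k ∈ Finset.univ.erase i) => e1 i k)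
    rw [e2 i]
    linarith
  rw [e0]
  refine le_trans (le_of_eq ?_) (Finset.sum_le_sum (fun i _ => e3 i))
  rw [Finset.sum_add_distrib, Finset.sum_sub_distrib]
  have e4 : ∑ i, ∑ k, ∑ j, ww a R C i j * ww a R C k j = ∑ j, (∑ i, ww a R C i j) ^ 2 := by
    simp only [sq, Finset.sum_mul_sum]
    rw [Finset.sum_comm' (s := Finset.univ) (t := fun _ => Finset.univ) (t' := Finset.univ)
      (s' := fun _ => Finset.univ) (by simp)]
    have : ∀ k : Fin n, ∑ i : Fin n, ∑ j : Fin n, ww a R C i j * ww a R C k j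
      = ∑ j, ∑ i, ww a R C i j * ww a R C k j := fun k => Finset.sum_comm
    simp only [this]
    rw [Finset.sum_comm]
    apply Finset.sum_congr rfl
    intro j _
    rw [Finset.sum_comm]
  rw [e4]
  simp only [← sq]
  ring

end setup

end Pool.Agent.Lib70.SparseDet
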