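import Pool.Agent.Lib_helper70.SparseDet5

set_option autoImplicit false

namespace Pool.Agent.Lib70.SparseDet

open Matrix Finset

section setup

variable {n : ℕ} {a : Fin n → Fin n → ℝ} {R C : Fin n → ℕ}

lemma sum_row_fun (hR : ∀ i, 2 ≤ R i) (hRs : ∀ i, ∑ j, a i j = R i) (f : ℕ → ℝ) :
    ∑ i, f (R i) = ∑ i, ∑ j, a i j * (f (R i) / R i) := by
  apply Finset.sum_congr rfl
  intro i _
  have h0 : (0 : ℝ) < R i := cast_pos_of (hR i)
  rw [← Finset.sum_mul, hRs]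
  field_simp

lemma sum_col_fun (hC : ∀ j, 2 ≤ C j) (hCs : ∀ j, ∑ i, a i j = C j) (f : ℕ → ℝ) :
    ∑ j, f (C j) = ∑ i, ∑ j, a i j * (f (C j) / C j) := by
  rw [Finset.sum_comm]
  apply Finset.sum_congr rfl
  intro j _
  have h0 : (0 : ℝ) < C j := cast_pos_of (hC j)
  rw [← Finset.sum_mul, hCs]
  field_simp

theorem main_min_two (h01 : ∀ i j, a i j = 0 ∨ a i j = 1)
    (hR : ∀ i, 2 ≤ R i) (hC : ∀ j, 2 ≤ C j)
    (hRs : ∀ i, ∑ j, a i j = R i) (hCs : ∀ j, ∑ i, a i j = C j)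
    (hdet : (Matrix.of a).det ≠ 0) :
    Real.log |(Matrix.of a).det| ≤ bet * (∑ i, ∑ j, a i j) + (c0 - 3 * bet) * n := by
  have hR0 : ∀ i, (0 : ℝ) < R i := fun i => cast_pos_of (hR i)
  have hC0 : ∀ i, (0 : ℝ) < C i := fun i => cast_pos_of (hC i)
  have h1 := logdet_le (GG a R C) (GG_posDef hR hC hdet) (one_sub_GG h01 hR hC hRs hCs)
  rw [logdet_eq hR hC hdet, trace_GG h01] at h1
  have h2 := trace_GG_sq (R := R) (C := C) h01
  have hk2 : 0 ≤ k2 := by
    have := gam_gt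
    unfold k2
    norm_num at this
    linarith
  have h3 := mul_le_mul_of_nonneg_left h2 hk2
  -- tangent lines
  have t1 : ∑ i, ∑ j, (2 * th (R i) * ww a R C i j - a i j * (th (R i) ^ 2 / R i))
      ≤ ∑ i, (∑ j, ww a R C i j) ^ 2 := by
    apply Finset.sum_le_sum
    intro i _
    rw [Finset.sum_sub_distrib, ← Finset.mul_sum, ← Finset.sum_mul, hRs]
    have : (R i : ℝ) * (th (R i) ^ 2 / R i) = th (R i) ^ 2 := by
      have := hR0 i
      field_simp
    rw [this]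
    nlinarith [sq_nonneg (∑ j, ww a R C i j - th (R i))]
  have t2 : ∑ i, ∑ j, (2 * th (C j) * ww a R C i j - a i j * (th (C j) ^ 2 / C j))
      ≤ ∑ j, (∑ i, ww a R C i j) ^ 2 := by
    rw [Finset.sum_comm]
    apply Finset.sum_le_sum
    intro j _
    rw [Finset.sum_sub_distrib, ← Finset.mul_sum, ← Finset.sum_mul, hCs]
    have : (C j : ℝ) * (th (C j) ^ 2 / C j) = th (C j) ^ 2 := by
      have := hC0 j
      field_simp
    rw [this]
    nlinarith [sq_nonneg (∑ i, ww a R C i j - th (C j))]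
  have t3 : ∑ i, ∑ j, (ww a R C i j) ^ 2
      = ∑ i, ∑ j, a i j * (1 / (R i : ℝ) * (1 / (C j : ℝ))) ^ 2 := by
    apply Finset.sum_congr rfl
    intro i _
    apply Finset.sum_congr rfl
    intro j _
    rw [ww, mul_pow, sq_eq_of_01 (h01 i j)]
  have hn1 := sum_row_fun hR hRs (fun _ => (1 : ℝ))
  have hn2 := sum_col_fun hC hCs (fun _ => (1 : ℝ))
  have hl1 := sum_row_fun hR hRs (fun m => Real.log m)
  have hl2 := sum_col_fun hC hCs (fun m => Real.log m)
  simp only [Finset.sum_const, Finset.card_univ, Fintype.card_fin, nsmul_eq_mul, mul_one] at hn1 hn2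
  -- the local inequality, summed
  have hloc : ∑ i, ∑ j, a i j * Q (1 / (R i : ℝ)) (1 / (C j : ℝ)) (Real.log (R i) / R i)
      (Real.log (C j) / C j) (th (R i)) (th (C j)) ≤ 0 := by
    apply Finset.sum_nonpos
    intro i _
    apply Finset.sum_nonpos
    intro j _
    exact mul_nonpos_of_nonneg_of_nonpos (nonneg_of_01 (h01 i j)) (local_ineq _ _ (hR i) (hC j))
  have hexp : ∑ i, ∑ j, a i j * Q (1 / (R i : ℝ)) (1 / (C j : ℝ)) (Real.log (R i) / R i)
      (Real.log (C j) / C j) (th (R i)) (th (C j))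
      = ∑ i, ∑ j, a i j * (Real.log (R i) / R i) + ∑ i, ∑ j, a i j * (Real.log (C j) / C j)
        + (k0 / 2 - (c0 - 3 * bet)) * (∑ i, ∑ j, a i j * (1 / (R i : ℝ))
            + ∑ i, ∑ j, a i j * (1 / (C j : ℝ)))
        + k1 * (∑ i, ∑ j, ww a R C i j)
        - k2 * (∑ i, ∑ j, (2 * th (R i) * ww a R C i j - a i j * (th (R i) ^ 2 / R i))
            + ∑ i, ∑ j, (2 * th (C j) * ww a R C i j - a i j * (th (C j) ^ 2 / C j))
            - ∑ i, ∑ j, a i j * (1 / (R i : ℝ) * (1 / (C j : ℝ))) ^ 2)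
        - 2 * bet * (∑ i, ∑ j, a i j) := by
    simp only [Finset.mul_sum, ← Finset.sum_add_distrib, ← Finset.sum_sub_distrib]
    apply Finset.sum_congr rfl
    intro i _
    apply Finset.sum_congr rfl
    intro j _
    simp only [Q, ww]
    ring
  rw [hexp, ← hl1, ← hl2, ← hn1, ← hn2] at hloc
  rw [t3] at h3
  have h4 : k2 * (∑ i, ∑ j, (2 * th (R i) * ww a R C i j - a i j * (th (R i) ^ 2 / R i))
            + ∑ i, ∑ j, (2 * th (C j) * ww a R C i j - a i j * (th (C j) ^ 2 / C j))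
            - ∑ i, ∑ j, a i j * (1 / (R i : ℝ) * (1 / (C j : ℝ))) ^ 2)
      ≤ k2 * (∑ i, (∑ j, ww a R C i j) ^ 2 + ∑ j, (∑ i, ww a R C i j) ^ 2
          - ∑ i, ∑ j, a i j * (1 / (R i : ℝ) * (1 / (C j : ℝ))) ^ 2) := by
    apply mul_le_mul_of_nonneg_left _ hk2
    linarith
  have h5 : (k0 / 2 - (c0 - 3 * bet)) * ((n : ℝ) + n) = k0 * n - 2 * ((c0 - 3 * bet) * n) := by
    ring
  rw [h5] at hloc
  linarith

end setup

end Pool.Agent.Lib70.SparseDet
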