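import Pool.Agent.Lib_helper70.SparseDet6

set_option autoImplicit false

namespace Pool.Agent.Lib70.SparseDet

open Matrix Finset

lemma bet_c0 : 2 * bet ≤ c0 := by
  have h2 := Real.log_two_gt_d9
  have h4 := log_three_gt
  unfold bet c0
  norm_num at h2 h4 ⊢
  linarith

/-- the exponent of the bound -/
noncomputable def expo {n : ℕ} (A : Matrix (Fin n) (Fin n) ℤ) : ℝ :=
  bet * (∑ i, ∑ j, (A i j : ℝ)) + (c0 - 3 * bet) * n

lemma expo_transpose {n : ℕ} (A : Matrix (Fin n) (Fin n) ℤ) : expo Aᵀ = expo A := by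
  unfold expo
  rw [Finset.sum_comm]
  simp [transpose_apply]

/-- inductive step on a sparse row -/
lemma step_row {n : ℕ} (A : Matrix (Fin (n + 1)) (Fin (n + 1)) ℤ)
    (h01 : ∀ i j, A i j = 0 ∨ A i j = 1)
    (ih : ∀ B : Matrix (Fin n) (Fin n) ℤ, (∀ i j, B i j = 0 ∨ B i j = 1) →
      |(B.det : ℝ)| ≤ Real.exp (expo B))
    (i : Fin (n + 1)) (hi : ∑ j, A i j ≤ 1) :
    |(A.det : ℝ)| ≤ Real.exp (expo A) := by
  have hnn : ∀ i j, (0 : ℝ) ≤ A i j := by
    intro i j
    rcases h01 i j with h | h <;> simp [h]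
  have hbet : 0 ≤ bet := by unfold bet; norm_num
  set s : ℝ := ∑ j, (A i j : ℝ) with hs
  have hsum : s = 0 ∨ s = 1 := by
    have h0 : 0 ≤ ∑ j, A i j := Finset.sum_nonneg (fun j _ => by
      rcases h01 i j with h | h <;> simp [h])
    have : ∑ j, A i j = 0 ∨ ∑ j, A i j = 1 := by omega
    rcases this with h | h
    · left; rw [hs]; exact_mod_cast h
    · right; rw [hs]; exact_mod_cast h
  have hsub : ∀ j : Fin (n + 1), expo (A.submatrix i.succAbove j.succAbove) ≤ expo A - bet * s
      - (c0 - 3 * bet) := by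
    intro j
    unfold expo
    have h1 : ∑ i', ∑ j', ((A.submatrix i.succAbove j.succAbove) i' j' : ℝ)
        ≤ ∑ i', ∑ j', (A (i.succAbove i') j' : ℝ) := by
      apply Finset.sum_le_sum
      intro i' _
      rw [Fin.sum_univ_succAbove _ j]
      simp only [submatrix_apply]
      have := hnn (i.succAbove i') j
      linarith
    have h2 : ∑ i', ∑ j', (A i' j' : ℝ) = s + ∑ i', ∑ j', (A (i.succAbove i') j' : ℝ) := by
      rw [Fin.sum_univ_succAbove _ i]
    rw [h2]
    have := mul_le_mul_of_nonneg_left h1 hbet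
    push_cast
    linarith
  have hdet : |(A.det : ℝ)| ≤ ∑ j, (A i j : ℝ) * Real.exp (expo A - bet * s - (c0 - 3 * bet)) := by
    rw [det_succ_row A i]
    simp only [Int.cast_sum, Int.cast_mul, Int.cast_pow, Int.cast_neg, Int.cast_one]
    refine le_trans (Finset.abs_sum_le_sum_abs _ _) (Finset.sum_le_sum (fun j _ => ?_))
    rw [abs_mul, abs_mul, abs_pow]
    simp only [abs_neg, abs_one, one_pow, one_mul]
    rw [abs_of_nonneg (hnn i j)]
    apply mul_le_mul_of_nonneg_left _ (hnn i j)
    exact le_trans (ih (A.submatrix i.succAbove j.succAbove) (fun i' j' => h01 _ _))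
      (Real.exp_le_exp.mpr (hsub j))
  rw [← Finset.sum_mul, ← hs] at hdet
  refine le_trans hdet ?_
  rcases hsum with h | h
  · rw [h]; simp only [zero_mul]; positivity
  · rw [h, one_mul]
    apply Real.exp_le_exp.mpr
    have := bet_c0
    linarith

theorem gen_bound (n : ℕ) : ∀ A : Matrix (Fin n) (Fin n) ℤ, (∀ i j, A i j = 0 ∨ A i j = 1) →
    |(A.det : ℝ)| ≤ Real.exp (expo A) := by
  induction n with
  | zero =>
    intro A _
    simp [expo]
  | succ n ih =>
    intro A h01
    by_cases hrow : ∃ i, ∑ j, A i j ≤ 1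
    · obtain ⟨i, hi⟩ := hrow
      exact step_row A h01 ih i hi
    by_cases hcol : ∃ j, ∑ i, A i j ≤ 1
    · obtain ⟨j, hj⟩ := hcol
      have := step_row Aᵀ (fun i j => h01 j i) ih j (by simpa using hj)
      rw [det_transpose, expo_transpose] at this
      exact this
    push Not at hrow hcol
    by_cases hdet : A.det = 0
    · rw [hdet]; simp only [Int.cast_zero, abs_zero]; positivity
    set a : Fin (n + 1) → Fin (n + 1) → ℝ := fun i j => (A i j : ℝ) with ha
    have hdet' : (Matrix.of a).det = (A.det : ℝ) := by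
      have := (Int.castRingHom ℝ).map_det A
      simp only [eq_intCast] at this
      rw [this]
      rfl
    have key := main_min_two (a := a) (R := fun i => (∑ j, A i j).toNat)
      (C := fun j => (∑ i, A i j).toNat)
      (fun i j => by
        rcases h01 i j with h | h
        · left; simp [ha, h]
        · right; simp [ha, h])
      (fun i => by
        have := hrow i
        show 2 ≤ (∑ j, A i j).toNat
        omega)
      (fun j => by
        have := hcol j
        show 2 ≤ (∑ i, A i j).toNat
        omega)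
      (fun i => by
        have h1 := hrow i
        have h2 : (((∑ j, A i j).toNat : ℤ) : ℝ) = ((∑ j, A i j : ℤ) : ℝ) := by
          rw [Int.toNat_of_nonneg (by omega)]
        have h3 : (((∑ j, A i j).toNat : ℤ) : ℝ) = ((∑ j, A i j).toNat : ℝ) := by push_cast; rfl
        rw [← h3, h2]
        push_cast
        rfl)
      (fun j => by
        have h1 := hcol j
        have h2 : (((∑ i, A i j).toNat : ℤ) : ℝ) = ((∑ i, A i j : ℤ) : ℝ) := by
          rw [Int.toNat_of_nonneg (by omega)]
        have h3 : (((∑ i, A i j).toNat : ℤ) : ℝ) = ((∑ i, A i j).toNat : ℝ) := by push_cast; rfl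
        rw [← h3, h2]
        push_cast
        rfl)
      (by rw [hdet']; exact_mod_cast hdet)
    rw [hdet'] at key
    have hpos : 0 < |(A.det : ℝ)| := by
      apply abs_pos.mpr
      exact_mod_cast hdet
    rw [← Real.exp_log hpos]
    apply Real.exp_le_exp.mpr
    refine le_trans key (le_of_eq ?_)
    simp only [expo, ha]

lemma log_24 : Real.log 24 = 3 * Real.log 2 + Real.log 3 := by
  rw [show (24 : ℝ) = 2 ^ 3 * 3 by norm_num, Real.log_mul (by norm_num) (by norm_num),
    Real.log_pow]
  norm_num

end Pool.Agent.Lib70.SparseDet
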